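import Pool.Agent.H.MP_0cad2f_co.q3.Defs
import Pool.Agent.H.MP_0cad2f_co.helper96.Meas2

/-!
The diameter of Gaussian-perturbed polytopes, without the number of constraints: measurability.
-/

set_option autoImplicit false

namespace Pool.Agent.H.MP_0cad2f_co.q3

open MeasureTheory Matrix Finset
open scoped NNReal ENNReal
open Pool.Agent.H.MP_0cad2f_co.helper47 (Vert graph gau noise n2 Idx mat nu vtx Good Simple)
open Pool.Agent.H.MP_0cad2f_co.qp (sl)
open Pool.Agent.H.MP_0cad2f_co.bd (rng law bar sh mm rhoB)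

variable {n d : ℕ}

open Classical in
private theorem meas_pow (G : Finset (Fin n)) (τ S : ℝ) (I : Idx n d) :
    Measurable fun q : (Fin n → Fin d → ℝ) × (Fin n → Fin d → ℝ) =>
      ENNReal.ofReal S ^ (nset q.2 G τ I).card := by
  have h1 : ∀ q : (Fin n → Fin d → ℝ) × (Fin n → Fin d → ℝ),
      ENNReal.ofReal S ^ (nset q.2 G τ I).card = ∏ g ∈ Gᶜ \ rng I,
        (if 1 - q.2 g ⬝ᵥ vtx q.2 I ≤ τ * n2 (vtx q.2 I) then ENNReal.ofReal S else 1) := by
    intro q
    rw [Finset.prod_ite, Finset.prod_const_one, mul_one, Finset.prod_const]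
    rfl
  simp_rw [h1]
  refine Finset.measurable_prod _ fun g _ => Measurable.ite ?_ measurable_const measurable_const
  refine measurableSet_le (measurable_const.sub ?_) (measurable_const.mul ?_)
  · exact helper96.measurable_dot ((measurable_pi_apply g).comp measurable_snd)
      ((helper11.TD.measurable_vtx I).comp measurable_snd)
  · exact helper11.TD.measurable_n2.comp ((helper11.TD.measurable_vtx I).comp measurable_snd)

open Classical in
private theorem meas_F (G : Finset (Fin n)) (τ S : ℝ) (I : Idx n d) :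
    Measurable fun q : (Fin n → Fin d → ℝ) × (Fin n → Fin d → ℝ) => ntF q.1 q.2 G τ S I := by
  unfold ntF
  refine Measurable.ite ?_ (meas_pow G τ S I) measurable_const
  refine MeasurableSet.inter (MeasurableSet.const _)
    (MeasurableSet.inter (measurable_snd (helper11.TD.measurableSet_good I)) ?_)
  have h1 : {q : (Fin n → Fin d → ℝ) × (Fin n → Fin d → ℝ) |
      ∀ i ∈ Gᶜ, n2 (q.2 i - q.1 i) ≤ 1} = ⋂ i ∈ Gᶜ, {q | n2 (q.2 i - q.1 i) ≤ 1} := by
    ext a
    simp only [Set.mem_setOf_eq, Set.mem_iInter]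
  change MeasurableSet {q : (Fin n → Fin d → ℝ) × (Fin n → Fin d → ℝ) |
      ∀ i ∈ Gᶜ, n2 (q.2 i - q.1 i) ≤ 1}
  rw [h1]
  refine Finset.measurableSet_biInter _ fun i _ => ?_
  exact measurableSet_le (helper11.TD.measurable_n2.comp
    (((measurable_pi_apply i).comp measurable_snd).sub
      ((measurable_pi_apply i).comp measurable_fst))) measurable_const

theorem measurable_ntF (G : Finset (Fin n)) (τ S : ℝ) (I : Idx n d) :
    Measurable (Function.uncurry fun cc a : Fin n → Fin d → ℝ => ntF cc a G τ S I) :=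
  meas_F G τ S I

theorem measurable_ntSum (G : Finset (Fin n)) (τ S : ℝ) :
    Measurable (Function.uncurry fun cc a : Fin n → Fin d → ℝ => ntSum (d := d) cc a G τ S) := by
  change Measurable fun q : (Fin n → Fin d → ℝ) × (Fin n → Fin d → ℝ) =>
    ∑ I : Idx n d, ntF q.1 q.2 G τ S I
  exact Finset.measurable_fun_sum _ fun I _ => meas_F G τ S I

end Pool.Agent.H.MP_0cad2f_co.q3
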