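import Pool.Agent.H.MP_0cad2f_co.q3.Defs
import Pool.Agent.H.MP_0cad2f_co.helper39.Average

/-!
The diameter of Gaussian-perturbed polytopes, without the number of constraints: the factor of one
constraint.
-/

set_option autoImplicit false

namespace Pool.Agent.H.MP_0cad2f_co.q3

open MeasureTheory ProbabilityTheory Matrix Finset
open scoped NNReal ENNReal
open Pool.Agent.H.MP_0cad2f_co.helper47 (gau n2 n2_nonneg n2_sq n2_smul)

variable {n d : ℕ}

private theorem one_n2 (c : Fin d → ℝ) : Measurable fun y : Fin d → ℝ => n2 (y - c) := by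
  have : Continuous fun y : Fin d → ℝ => n2 (y - c) := by
    unfold n2
    simp only [dotProduct]
    fun_prop
  exact this.measurable

private theorem one_dot (x : Fin d → ℝ) : Measurable fun y : Fin d → ℝ => y ⬝ᵥ x := by
  have : Continuous fun y : Fin d → ℝ => y ⬝ᵥ x := by
    simp only [dotProduct]
    fun_prop
  exact this.measurable

private theorem one_A (c x : Fin d → ℝ) :
    MeasurableSet {y : Fin d → ℝ | n2 (y - c) ≤ 1 ∧ y ⬝ᵥ x ≤ 1} :=
  (measurableSet_le (one_n2 c) measurable_const).inter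
    (measurableSet_le (one_dot x) measurable_const)

private theorem one_T (x : Fin d → ℝ) (τ : ℝ) :
    MeasurableSet {y : Fin d → ℝ | 1 - y ⬝ᵥ x ≤ τ * n2 x} :=
  measurableSet_le ((one_dot x).const_sub 1) measurable_const

theorem measurable_fac (c x : Fin d → ℝ) (τ S : ℝ) : Measurable (fac c τ S x) := by
  unfold fac
  exact Measurable.ite (one_A c x) (Measurable.ite (one_T x τ) measurable_const measurable_const)
    measurable_const

/-- Nearly tight constraints are rare among violated ones. -/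
private theorem one_rare (c x : Fin d → ℝ) {σ τ : ℝ} (hσ : 0 < σ) (hσ1 : σ ≤ 1) (hx : x ≠ 0)
    (hτ : 0 < τ) (hτ1 : 8 * τ ≤ σ ^ 2) :
    gau c σ {y | (n2 (y - c) ≤ 1 ∧ y ⬝ᵥ x ≤ 1) ∧ 1 - y ⬝ᵥ x ≤ τ * n2 x} ≤
      ENNReal.ofReal (24 * τ / σ ^ 2) * gau c σ {y | 1 < y ⬝ᵥ x} := by
  have hx0 : 0 < n2 x := by
    rcases (n2_nonneg x).eq_or_lt with h | h
    · exfalso
      have h1 := n2_sq x
      rw [← h] at h1
      apply hx
      apply dotProduct_self_eq_zero.1
      rw [← h1]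
      norm_num
    · exact h
  have hσ2 : 0 < σ ^ 2 := by positivity
  have e1 : 24 * τ / σ ^ 2 = 6 * τ / (σ ^ 2 / 4) := by
    field_simp
    ring
  rw [e1]
  refine helper39.gau_average c ((n2 x)⁻¹ • x) (Rg := 1) (t₁ := 2 * τ)
    (φ := fun y => (y ⬝ᵥ x - 1) / n2 x) hσ hσ1 zero_le_one (by positivity) (by positivity) ?_
    (measurableSet_lt measurable_const (one_dot x)) (((one_dot x).sub_const 1).div_const _) ?_
  · rw [n2_smul, abs_of_pos (inv_pos.2 hx0), inv_mul_cancel₀ hx0.ne']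
    linarith
  · rintro y ⟨⟨h1, h2⟩, h3⟩
    refine ⟨h1, fun t ht => ?_⟩
    have h4 : (y + t • (n2 x)⁻¹ • x) ⬝ᵥ x = y ⬝ᵥ x + t * n2 x := by
      rw [add_dotProduct, smul_dotProduct, smul_dotProduct, ← n2_sq, smul_eq_mul, smul_eq_mul]
      field_simp
    have h5 : ((y ⬝ᵥ x + t * n2 x) - 1) / n2 x - t = (y ⬝ᵥ x - 1) / n2 x := by
      field_simp
      ring
    have h6 : 2 * τ * n2 x ≤ t * n2 x := mul_le_mul_of_nonneg_right ht.1 hx0.le
    refine ⟨?_, ?_⟩
    · show 1 < (y + t • (n2 x)⁻¹ • x) ⬝ᵥ x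
      rw [h4]
      nlinarith [mul_pos hτ hx0]
    · show |((y + t • (n2 x)⁻¹ • x) ⬝ᵥ x - 1) / n2 x - t| ≤ τ
      rw [h4, h5, abs_le]
      constructor
      · rw [le_div_iff₀ hx0]
        linarith
      · exact (div_nonpos_of_nonpos_of_nonneg (by linarith) hx0.le).trans hτ.le

theorem fac_int (c x : Fin d → ℝ) {σ τ S : ℝ} (hσ : 0 < σ) (hσ1 : σ ≤ 1) (hx : x ≠ 0)
    (hτ : 0 < τ) (hτ1 : 8 * τ ≤ σ ^ 2) (hS : S = 1 + σ ^ 2 / (48 * τ)) :
    ∫⁻ y, fac c τ S x y ∂(gau c σ) ≤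
      ENNReal.ofReal (1 / 2) * (1 + gau c σ {y | n2 (y - c) ≤ 1 ∧ y ⬝ᵥ x ≤ 1}) := by
  classical
  set A : Set (Fin d → ℝ) := {y | n2 (y - c) ≤ 1 ∧ y ⬝ᵥ x ≤ 1} with hA
  set N : Set (Fin d → ℝ) :=
    {y | (n2 (y - c) ≤ 1 ∧ y ⬝ᵥ x ≤ 1) ∧ 1 - y ⬝ᵥ x ≤ τ * n2 x} with hN
  have hAm : MeasurableSet A := one_A c x
  have hNm : MeasurableSet N := (one_A c x).inter (one_T x τ)
  have h0 : 0 ≤ σ ^ 2 / (48 * τ) := by positivity
  have h1 : ∀ y, fac c τ S x y ≤ A.indicator 1 y +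
      ENNReal.ofReal (σ ^ 2 / (48 * τ)) * N.indicator 1 y := by
    intro y
    unfold fac
    by_cases hy : n2 (y - c) ≤ 1 ∧ y ⬝ᵥ x ≤ 1
    · have hyA : y ∈ A := hy
      rw [if_pos hy, Set.indicator_of_mem hyA]
      by_cases hy' : 1 - y ⬝ᵥ x ≤ τ * n2 x
      · have hyN : y ∈ N := ⟨hy, hy'⟩
        rw [if_pos hy', Set.indicator_of_mem hyN, Pi.one_apply, mul_one, hS,
          ENNReal.ofReal_add zero_le_one h0, ENNReal.ofReal_one]
      · rw [if_neg hy', Pi.one_apply]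
        exact le_self_add
    · rw [if_neg hy]
      exact bot_le
  have h2 : ∫⁻ y, fac c τ S x y ∂(gau c σ) ≤ gau c σ A +
      ENNReal.ofReal (σ ^ 2 / (48 * τ)) * gau c σ N := by
    refine (lintegral_mono h1).trans (le_of_eq ?_)
    rw [lintegral_add_left (measurable_one.indicator hAm),
      lintegral_const_mul _ (measurable_one.indicator hNm), lintegral_indicator_one hAm,
      lintegral_indicator_one hNm]
  have h3 : ENNReal.ofReal (σ ^ 2 / (48 * τ)) * gau c σ N ≤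
      ENNReal.ofReal (1 / 2) * gau c σ {y | 1 < y ⬝ᵥ x} := by
    refine (mul_le_mul_right (one_rare c x hσ hσ1 hx hτ hτ1) _).trans (le_of_eq ?_)
    rw [← mul_assoc, ← ENNReal.ofReal_mul h0]
    congr 2
    field_simp
    norm_num
  have h4 : gau c σ A + gau c σ {y | 1 < y ⬝ᵥ x} ≤ 1 := by
    have hdis : Disjoint A {y | 1 < y ⬝ᵥ x} := by
      rw [Set.disjoint_left]
      intro y hy hy'
      exact absurd hy.2 (not_le.2 hy')
    rw [← measure_union hdis (measurableSet_lt measurable_const (one_dot x))]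
    exact prob_le_one
  have h5 : gau c σ A = ENNReal.ofReal (1 / 2) * (gau c σ A + gau c σ A) := by
    rw [← two_mul, ← mul_assoc]
    have : ENNReal.ofReal (1 / 2) * 2 = 1 := by
      rw [← ENNReal.ofReal_ofNat, ← ENNReal.ofReal_mul (by norm_num)]
      norm_num
    rw [this, one_mul]
  calc ∫⁻ y, fac c τ S x y ∂(gau c σ)
      ≤ gau c σ A + ENNReal.ofReal (1 / 2) * gau c σ {y | 1 < y ⬝ᵥ x} :=
        h2.trans (add_le_add_right h3 _)
    _ = ENNReal.ofReal (1 / 2) *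
        ((gau c σ A + gau c σ {y | 1 < y ⬝ᵥ x}) + gau c σ A) := by
        nth_rewrite 1 [h5]
        ring
    _ ≤ ENNReal.ofReal (1 / 2) * (1 + gau c σ A) := by
        gcongr

end Pool.Agent.H.MP_0cad2f_co.q3
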