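import Pool.Agent.H.MP_0cad2f_co.q3.Defs
import Pool.Agent.H.MP_0cad2f_co.bd.Marg

/-!
Marginal integrals of products of functions of one constraint.
-/

set_option autoImplicit false

namespace Pool.Agent.H.MP_0cad2f_co.q3

open MeasureTheory ProbabilityTheory Matrix Finset
open scoped NNReal ENNReal

variable {n d : ℕ}

private theorem Prod_meas {Z : Finset (Fin n)} {h : Fin n → (Fin d → ℝ) → ℝ≥0∞}
    (hh : ∀ i, Measurable (h i)) :
    Measurable fun b : Fin n → Fin d → ℝ => ∏ i ∈ Z, h i (b i) :=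
  Finset.measurable_fun_prod _ fun i _ => (hh i).comp (measurable_pi_apply i)

theorem lmarginal_prod_sub {μ : Fin n → Measure (Fin d → ℝ)} [∀ i, IsProbabilityMeasure (μ i)]
    {L Z : Finset (Fin n)} (hZ : Z ⊆ L) {h : Fin n → (Fin d → ℝ) → ℝ≥0∞}
    (hh : ∀ i, Measurable (h i)) (b : Fin n → Fin d → ℝ) :
    (∫⋯∫⁻_L, (fun b => ∏ i ∈ Z, h i (b i)) ∂μ) b = ∏ i ∈ Z, ∫⁻ y, h i y ∂(μ i) := by
  induction L using Finset.induction_on generalizing Z b with
  | empty =>
    have hZ0 : Z = ∅ := Finset.subset_empty.mp hZ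
    subst hZ0
    rw [lmarginal_empty]
    simp
  | insert i L hi ih =>
    rw [lmarginal_insert _ (Prod_meas hh) hi]
    by_cases hiZ : i ∈ Z
    · have hsub : Z.erase i ⊆ L := by
        intro j hj
        rw [Finset.mem_erase] at hj
        exact (Finset.mem_insert.mp (hZ hj.2)).resolve_left hj.1
      have h1 : ∀ x : Fin d → ℝ,
          (∫⋯∫⁻_L, (fun b => ∏ i ∈ Z, h i (b i)) ∂μ) (Function.update b i x) =
            h i x * ∏ j ∈ Z.erase i, ∫⁻ y, h j y ∂(μ j) := by
        intro x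
        rw [← ih hsub (Function.update b i x), ← bd.lmarginal_const_mul (Prod_meas hh)]
        refine bd.lmarginal_congr_of fun b' hb' => ?_
        have h2 : b' i = x := by
          rw [hb' i hi, Function.update_self]
        rw [← Finset.mul_prod_erase Z _ hiZ, h2]
      simp only [h1]
      rw [lintegral_mul_const _ (hh i), ← Finset.mul_prod_erase Z _ hiZ]
    · have hsub : Z ⊆ L := by
        intro j hj
        refine (Finset.mem_insert.mp (hZ hj)).resolve_left fun h2 => hiZ ?_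
        rwa [← h2]
      have h1 : ∀ x : Fin d → ℝ,
          (∫⋯∫⁻_L, (fun b => ∏ i ∈ Z, h i (b i)) ∂μ) (Function.update b i x) =
            ∏ j ∈ Z, ∫⁻ y, h j y ∂(μ j) := fun x => ih hsub _
      simp only [h1]
      rw [lintegral_const, measure_univ, mul_one]

theorem prod_half {μ : Fin n → Measure (Fin d → ℝ)} [∀ i, IsProbabilityMeasure (μ i)]
    (L : Finset (Fin n)) {f h : Fin n → (Fin d → ℝ) → ℝ≥0∞} (hf : ∀ i, Measurable (f i))
    (hh : ∀ i, Measurable (h i))
    (hfh : ∀ i, ∫⁻ y, f i y ∂(μ i) ≤ ENNReal.ofReal (1 / 2) * (1 + ∫⁻ y, h i y ∂(μ i)))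
    (b : Fin n → Fin d → ℝ) :
    (∫⋯∫⁻_L, (fun b => ∏ i ∈ L, f i (b i)) ∂μ) b ≤ ENNReal.ofReal (1 / 2) ^ L.card *
      ∑ Z ∈ L.powerset, (∫⋯∫⁻_L, (fun b => ∏ i ∈ Z, h i (b i)) ∂μ) b := by
  rw [lmarginal_prod_sub (Finset.Subset.refl L) hf b]
  refine (Finset.prod_le_prod' fun i _ => hfh i).trans (le_of_eq ?_)
  rw [Finset.prod_mul_distrib, Finset.prod_const, Finset.prod_one_add]
  congr 1
  refine Finset.sum_congr rfl fun Z hZ => ?_
  rw [lmarginal_prod_sub (Finset.mem_powerset.mp hZ) hh b]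

end Pool.Agent.H.MP_0cad2f_co.q3
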