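import Pool.Agent.H.MP_0cad2f_co.q3.Defs
import Pool.Agent.H.MP_0cad2f_co.q3.One
import Pool.Agent.H.MP_0cad2f_co.q3.Prod
import Pool.Agent.H.MP_0cad2f_co.q3.Meas
import Pool.Agent.H.MP_0cad2f_co.bd.Marg
import Pool.Agent.H.MP_0cad2f_co.bd.Meas

/-!
The diameter of Gaussian-perturbed polytopes, without the number of constraints: the nearly tight
constraints of one vertex.
-/

set_option autoImplicit false

namespace Pool.Agent.H.MP_0cad2f_co.q3

open MeasureTheory ProbabilityTheory Matrix Finset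
open scoped NNReal ENNReal
open Pool.Agent.H.MP_0cad2f_co.helper47 (Vert graph gau noise n2 Idx mat nu vtx Good Simple
  dot_vtx)
open Pool.Agent.H.MP_0cad2f_co.helper29 (toVert)
open Pool.Agent.H.MP_0cad2f_co.qp (sl)
open Pool.Agent.H.MP_0cad2f_co.bd (rng law bar sh mm rhoB mask Ok Bdd blk BlkBad mem_rng_self
  good_mask vtx_mask mat_mask measurableSet_ok lmarginal_mono_of lmarginal_sum
  lmarginal_const_mul)

variable {n d : ℕ}

private theorem Fix_mat {a b : Fin n → Fin d → ℝ} {I : Idx n d} (h : ∀ k, a (I k) = b (I k)) :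
    mat a I = mat b I := by
  funext k j
  rw [mat, mat, h k]

private theorem Fix_vtx {a b : Fin n → Fin d → ℝ} {I : Idx n d} (h : ∀ k, a (I k) = b (I k)) :
    vtx a I = vtx b I := by
  unfold vtx nu
  rw [Fix_mat h]

private theorem Fix_n2 (c : Fin d → ℝ) : Measurable fun y : Fin d → ℝ => n2 (y - c) := by
  have : Continuous fun y : Fin d → ℝ => n2 (y - c) := by
    unfold n2
    simp only [dotProduct]
    fun_prop
  exact this.measurable

private theorem Fix_dot (x : Fin d → ℝ) : Measurable fun y : Fin d → ℝ => y ⬝ᵥ x := by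
  have : Continuous fun y : Fin d → ℝ => y ⬝ᵥ x := by
    simp only [dotProduct]
    fun_prop
  exact this.measurable

/-- The good values of one constraint. -/
private def Fix_A (c x : Fin d → ℝ) : Set (Fin d → ℝ) := {y | n2 (y - c) ≤ 1 ∧ y ⬝ᵥ x ≤ 1}

private theorem Fix_meas (c x : Fin d → ℝ) : MeasurableSet (Fix_A c x) :=
  (measurableSet_le (Fix_n2 c) measurable_const).inter
    (measurableSet_le (Fix_dot x) measurable_const)

/-- Feasibility with respect to the constraints in `S`. -/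
private theorem Fix_good {S : Finset (Fin n)} {b : Fin n → Fin d → ℝ} {I : Idx n d}
    (hI : rng I ⊆ S) : Good (mask S b) I ↔
      (mat b I).det ≠ 0 ∧ ∀ i ∈ S, b i ⬝ᵥ vtx b I ≤ 1 := by
  unfold Good
  rw [mat_mask b hI, vtx_mask b hI]
  refine and_congr Iff.rfl ⟨fun h i hi => ?_, fun h i => ?_⟩
  · have h1 := h i
    unfold mask at h1
    rwa [if_pos hi] at h1
  · unfold mask
    by_cases hi : i ∈ S
    · rw [if_pos hi]
      exact h i hi
    · rw [if_neg hi, zero_dotProduct]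
      exact zero_le_one

open Classical in
/-- The inner integral. -/
private theorem Fix_inner (cc : Fin n → Fin d → ℝ) {σ ρ τ S : ℝ} (hd : 1 ≤ d) (hσ : 0 < σ)
    (hσ1 : σ ≤ 1) (hτ : 0 < τ) (hτ1 : 8 * τ ≤ σ ^ 2) (hS : S = 1 + σ ^ 2 / (48 * τ))
    {G : Finset (Fin n)} (a : Fin n → Fin d → ℝ) (hb : Bdd a G ρ) {I : Idx n d}
    (hI : rng I ⊆ Gᶜ) (b : Fin n → Fin d → ℝ) (hba : ∀ i, i ∉ rng I → b i = a i) :
    (∫⋯∫⁻_Gᶜ \ rng I, (fun b => ntF cc b G τ S I) ∂(law cc σ)) b ≤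
      ENNReal.ofReal (1 / 2) ^ (Gᶜ \ rng I).card * ∑ Z ∈ (Gᶜ \ rng I).powerset,
        (∫⋯∫⁻_Gᶜ \ rng I, (fun b => if Ok cc b ρ G (Z ∪ rng I) I then (1 : ℝ≥0∞) else 0)
          ∂(law cc σ)) b := by
  have hLG : ∀ i ∈ G, i ∉ Gᶜ \ rng I := by
    intro i hi h
    exact (Finset.mem_compl.1 (Finset.mem_sdiff.1 h).1) hi
  have hLI : ∀ i ∈ rng I, i ∉ Gᶜ \ rng I := fun i hi h => (Finset.mem_sdiff.1 h).2 hi
  have hIn : ∀ k, I k ∉ Gᶜ \ rng I := fun k => hLI _ (mem_rng_self I k)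
  have hvtx : ∀ b' : Fin n → Fin d → ℝ, (∀ i, i ∉ Gᶜ \ rng I → b' i = b i) →
      vtx b' I = vtx b I := fun b' h => Fix_vtx fun k => h _ (hIn k)
  have hmat : ∀ b' : Fin n → Fin d → ℝ, (∀ i, i ∉ Gᶜ \ rng I → b' i = b i) →
      mat b' I = mat b I := fun b' h => Fix_mat fun k => h _ (hIn k)
  by_cases hbase : ((mat b I).det ≠ 0 ∧ ∀ i ∈ G ∪ rng I, b i ⬝ᵥ vtx b I ≤ 1) ∧
      ∀ i ∈ rng I, n2 (b i - cc i) ≤ 1
  · obtain ⟨⟨hdet, hfeas⟩, hnear⟩ := hbase
    obtain ⟨x, hx⟩ : ∃ x, x = vtx b I := ⟨_, rfl⟩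
    rw [← hx] at hfeas
    have hx0 : x ≠ 0 := by
      intro h0
      have h1 := dot_vtx hdet ⟨0, hd⟩
      rw [← hx, h0, dotProduct_zero] at h1
      exact zero_ne_one h1
    have h1 : (∫⋯∫⁻_Gᶜ \ rng I, (fun b => ntF cc b G τ S I) ∂(law cc σ)) b ≤
        (∫⋯∫⁻_Gᶜ \ rng I, (fun b => ∏ g ∈ Gᶜ \ rng I, fac (cc g) τ S x (b g))
          ∂(law cc σ)) b := by
      refine lmarginal_mono_of fun b' hb' => ?_
      unfold ntF
      split_ifs with hif
      · obtain ⟨-, hg, hn⟩ := hif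
        have h2 : ∀ g ∈ Gᶜ \ rng I, fac (cc g) τ S x (b' g) =
            if 1 - b' g ⬝ᵥ x ≤ τ * n2 x then ENNReal.ofReal S else 1 := by
          intro g hgL
          unfold fac
          rw [if_pos]
          refine ⟨hn g (Finset.mem_sdiff.1 hgL).1, ?_⟩
          rw [hx, ← hvtx b' hb']
          exact hg.2 g
        rw [Finset.prod_congr rfl h2, Finset.prod_ite, Finset.prod_const_one, mul_one,
          Finset.prod_const]
        unfold nset
        rw [hvtx b' hb', ← hx]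
      · exact zero_le
    have h2 : ∀ i, ∫⁻ y, fac (cc i) τ S x y ∂(law cc σ i) ≤ ENNReal.ofReal (1 / 2) *
        (1 + ∫⁻ y, Set.indicator (Fix_A (cc i) x) (fun _ => (1 : ℝ≥0∞)) y ∂(law cc σ i)) := by
      intro i
      rw [lintegral_indicator_const (Fix_meas (cc i) x), one_mul]
      exact fac_int (cc i) x hσ hσ1 hx0 hτ hτ1 hS
    refine h1.trans ((prod_half (μ := law cc σ) (Gᶜ \ rng I)
      (f := fun i => fac (cc i) τ S x)
      (h := fun i => Set.indicator (Fix_A (cc i) x) (fun _ => (1 : ℝ≥0∞)))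
      (fun i => measurable_fac (cc i) x τ S)
      (fun i => measurable_const.indicator (Fix_meas (cc i) x)) h2 b).trans ?_)
    refine mul_le_mul' le_rfl (Finset.sum_le_sum fun Z hZ => ?_)
    refine lmarginal_mono_of fun b' hb' => ?_
    rw [Finset.mem_powerset] at hZ
    by_cases hall : ∀ i ∈ Z, b' i ∈ Fix_A (cc i) x
    · have hOk : Ok cc b' ρ G (Z ∪ rng I) I := by
        have hG' : ∀ i ∈ G, b' i = b i := fun i hi => hb' i (hLG i hi)
        have hI' : ∀ i ∈ rng I, b' i = b i := fun i hi => hb' i (hLI i hi)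
        refine ⟨?_, ?_, ?_⟩
        · have hsub : rng I ⊆ G ∪ (Z ∪ rng I) :=
            Finset.subset_union_right.trans Finset.subset_union_right
          rw [Fix_good hsub, hmat b' hb', hvtx b' hb', ← hx]
          refine ⟨hdet, fun i hi => ?_⟩
          rcases Finset.mem_union.1 hi with h3 | h3
          · rw [hG' i h3]
            exact hfeas i (Finset.mem_union_left _ h3)
          · rcases Finset.mem_union.1 h3 with h4 | h4
            · exact (hall i h4).2
            · rw [hI' i h4]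
              exact hfeas i (Finset.mem_union_right _ h4)
        · rw [hvtx b' hb', ← hx]
          refine hb x fun i hi => ?_
          have h3 : b i = a i := hba i fun h4 => (Finset.mem_compl.1 (hI h4)) hi
          rw [← h3]
          exact hfeas i (Finset.mem_union_left _ hi)
        · intro i hi
          rcases Finset.mem_union.1 hi with h4 | h4
          · exact (hall i h4).1
          · rw [hI' i h4]
            exact hnear i h4
      rw [if_pos hOk]
      refine Finset.prod_le_one' fun i _ => ?_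
      exact Set.indicator_le_self' (fun _ _ => zero_le) _
    · push Not at hall
      obtain ⟨i, hi, hi'⟩ := hall
      rw [Finset.prod_eq_zero hi (Set.indicator_of_notMem hi' _)]
      exact zero_le
  · have h1 : (∫⋯∫⁻_Gᶜ \ rng I, (fun b => ntF cc b G τ S I) ∂(law cc σ)) b ≤
        (∫⋯∫⁻_Gᶜ \ rng I, (fun _ => 0) ∂(law cc σ)) b := by
      refine lmarginal_mono_of fun b' hb' => ?_
      unfold ntF
      rw [if_neg]
      rintro ⟨-, hg, hn⟩
      apply hbase
      refine ⟨⟨?_, fun i hi => ?_⟩, fun i hi => ?_⟩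
      · rw [← hmat b' hb']
        exact hg.1
      · have h3 : i ∉ Gᶜ \ rng I := by
          rcases Finset.mem_union.1 hi with h4 | h4
          · exact hLG i h4
          · exact hLI i h4
        rw [← hvtx b' hb', ← hb' i h3]
        exact hg.2 i
      · rw [← hb' i (hLI i hi)]
        exact hn i (hI hi)
    have h2 : (∫⋯∫⁻_Gᶜ \ rng I, (fun _ => (0 : ℝ≥0∞)) ∂(law cc σ)) b = 0 := by
      unfold lmarginal
      exact lintegral_zero
    rw [h2] at h1
    exact h1.trans zero_le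

open Classical in
theorem nt_fix (cc : Fin n → Fin d → ℝ) {σ ρ τ S : ℝ} (hd : 1 ≤ d) (hσ : 0 < σ) (hσ1 : σ ≤ 1)
    (hτ : 0 < τ) (hτ1 : 8 * τ ≤ σ ^ 2) (hS : S = 1 + σ ^ 2 / (48 * τ)) {G : Finset (Fin n)}
    (a : Fin n → Fin d → ℝ) (hb : Bdd a G ρ) {I : Idx n d} (hI : rng I ⊆ Gᶜ) :
    (∫⋯∫⁻_Gᶜ, (fun b => ntF cc b G τ S I) ∂(law cc σ)) a ≤
      ENNReal.ofReal (1 / 2) ^ (Gᶜ \ rng I).card * ∑ Z ∈ (Gᶜ \ rng I).powerset,
        (∫⋯∫⁻_Gᶜ, (fun b => if Ok cc b ρ G (Z ∪ rng I) I then (1 : ℝ≥0∞) else 0)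
          ∂(law cc σ)) a := by
  have hun : Gᶜ = rng I ∪ (Gᶜ \ rng I) := (Finset.union_sdiff_of_subset hI).symm
  have hdis : Disjoint (rng I) (Gᶜ \ rng I) := Finset.disjoint_sdiff
  have hmF : Measurable fun b => ntF cc b G τ S I :=
    (measurable_ntF G τ S I).of_uncurry_left (x := cc)
  have hmO : ∀ Z : Finset (Fin n), Measurable fun b : Fin n → Fin d → ℝ =>
      if Ok cc b ρ G (Z ∪ rng I) I then (1 : ℝ≥0∞) else 0 := fun Z =>
    Measurable.ite (measurableSet_ok cc ρ G (Z ∪ rng I) I) measurable_const measurable_const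
  have hmL : ∀ Z : Finset (Fin n), Measurable
      (∫⋯∫⁻_Gᶜ \ rng I, (fun b => if Ok cc b ρ G (Z ∪ rng I) I then (1 : ℝ≥0∞) else 0)
        ∂(law cc σ)) := fun Z => (hmO Z).lmarginal _
  have hsplit : ∀ f : (Fin n → Fin d → ℝ) → ℝ≥0∞, Measurable f →
      (∫⋯∫⁻_Gᶜ, f ∂(law cc σ)) a =
        (∫⋯∫⁻_rng I, (∫⋯∫⁻_Gᶜ \ rng I, f ∂(law cc σ)) ∂(law cc σ)) a := by
    intro f hf
    conv_lhs => rw [hun]
    rw [lmarginal_union _ f hf hdis]
  rw [hsplit _ hmF, Finset.sum_congr rfl fun Z _ => hsplit _ (hmO Z)]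
  refine (lmarginal_mono_of (g := fun b => ENNReal.ofReal (1 / 2) ^ (Gᶜ \ rng I).card *
    ∑ Z ∈ (Gᶜ \ rng I).powerset,
        (∫⋯∫⁻_Gᶜ \ rng I, (fun b => if Ok cc b ρ G (Z ∪ rng I) I then (1 : ℝ≥0∞) else 0)
          ∂(law cc σ)) b) fun b hba => ?_).trans (le_of_eq ?_)
  · exact Fix_inner cc hd hσ hσ1 hτ hτ1 hS a hb hI b hba
  · rw [lmarginal_const_mul (Finset.measurable_fun_sum _ fun Z _ => hmL Z),
      lmarginal_sum _ fun Z _ => hmL Z]

end Pool.Agent.H.MP_0cad2f_co.q3
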