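import Pool.Agent.H.MP_0cad2f_co.q3.Defs
import Pool.Agent.H.MP_0cad2f_co.q3.Meas
import Pool.Agent.H.MP_0cad2f_co.q3.Fix
import Pool.Agent.H.MP_0cad2f_co.bd.Marg
import Pool.Agent.H.MP_0cad2f_co.bd.Meas
import Pool.Agent.H.MP_0cad2f_co.bd.VStar

/-!
The mean of the sum, over the vertices outside a block, of the weights of their nearly tight
constraints.
-/

set_option autoImplicit false

namespace Pool.Agent.H.MP_0cad2f_co.q3

open MeasureTheory ProbabilityTheory Matrix Finset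
open scoped NNReal ENNReal
open Pool.Agent.H.MP_0cad2f_co.helper47 (Vert graph gau noise n2 Idx mat nu vtx Good Simple)
open Pool.Agent.H.MP_0cad2f_co.qp (sl)
open Pool.Agent.H.MP_0cad2f_co.bd (rng law bar sh mm rhoB mask Ok Bdd blk BlkBad)

variable {n d : ℕ}

open Classical in
private theorem measurable_ind (cc : Fin n → Fin d → ℝ) (ρ : ℝ) (J Z : Finset (Fin n))
    (p : Prop) [Decidable p] (I : Idx n d) :
    Measurable fun b : Fin n → Fin d → ℝ => if p ∧ Ok cc b ρ J Z I then (1 : ℝ≥0∞) else 0 := by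
  by_cases hp : p
  · simp only [hp, true_and]
    exact Measurable.ite (bd.measurableSet_ok cc ρ J Z I) measurable_const measurable_const
  · simp only [hp, false_and, if_false]
    exact measurable_const

open Classical in
/-- The kept constraints `Z`. -/
private theorem sum_kept (cc : Fin n → Fin d → ℝ) {σ ρ : ℝ} (hn : 2 ≤ n) (hd : 2 ≤ d)
    (hσ : 0 < σ) (hσ1 : σ ≤ 1 / (6 * Real.sqrt (d * Real.log n))) (hρ : 0 ≤ ρ)
    {G Z : Finset (Fin n)} (hZ : Z ⊆ Gᶜ)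
    (hcc : ∀ i, n2 (cc i) ≤ 3) (a : Fin n → Fin d → ℝ) (ha : ∀ i ∈ G, n2 (a i) ≤ 4)
    (hb : Bdd a G ρ) :
    ∑ I : Idx n d, (∫⋯∫⁻_Gᶜ, (fun b => if rng I ⊆ Z ∧ Ok cc b ρ G Z I then (1 : ℝ≥0∞) else 0)
      ∂(law cc σ)) a ≤
      ENNReal.ofReal ((24 * (d : ℝ) ^ 2 * (48 * d * (1 + 4 * ρ) / σ ^ 2)) ^ d) := by
  have hGZ : Disjoint G Z := by
    rw [Finset.disjoint_left]
    intro i hi hiZ
    exact (Finset.mem_compl.mp (hZ hiZ)) hi
  have hm : ∀ I : Idx n d, Measurable fun b : Fin n → Fin d → ℝ =>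
      if rng I ⊆ Z ∧ Ok cc b ρ G Z I then (1 : ℝ≥0∞) else 0 :=
    fun I => measurable_ind cc ρ G Z (rng I ⊆ Z) I
  have hmS : Measurable fun b : Fin n → Fin d → ℝ =>
      ∑ I : Idx n d, if rng I ⊆ Z ∧ Ok cc b ρ G Z I then (1 : ℝ≥0∞) else 0 :=
    Finset.measurable_fun_sum _ fun I _ => hm I
  rw [← bd.lmarginal_sum Finset.univ (fun I _ => hm I) a]
  have hU : Gᶜ = (Gᶜ \ Z) ∪ Z := (Finset.sdiff_union_of_subset hZ).symm
  rw [hU, lmarginal_union _ _ hmS Finset.sdiff_disjoint]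
  refine (bd.lmarginal_mono_of (g := fun _ =>
    ENNReal.ofReal ((24 * (d : ℝ) ^ 2 * (48 * d * (1 + 4 * ρ) / σ ^ 2)) ^ d))
    fun b hba => ?_).trans (le_of_eq (bd.lmarginal_const _ _ _))
  have hbG : ∀ i ∈ G, b i = a i := by
    intro i hi
    refine hba i fun hmem => ?_
    exact (Finset.mem_compl.mp (Finset.mem_sdiff.mp hmem).1) hi
  refine bd.vstar cc hn hd hσ hσ1 hρ hGZ (fun i _ => hcc i) b (fun i hi => ?_) ?_
  · rw [hbG i hi]
    exact ha i hi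
  · intro x hx
    refine hb x fun i hi => ?_
    rw [← hbG i hi]
    exact hx i hi

open Classical in
/-- The mean of the sum of the weights. -/
theorem nt_moment (cc : Fin n → Fin d → ℝ) {σ ρ τ S : ℝ} (hn : 2 ≤ n) (hd : 2 ≤ d)
    (hσ : 0 < σ) (hσ1 : σ ≤ 1 / (6 * Real.sqrt (d * Real.log n))) (hρ : 0 ≤ ρ)
    (hτ : 0 < τ) (hτ1 : 8 * τ ≤ σ ^ 2) (hS : S = 1 + σ ^ 2 / (48 * τ)) {G : Finset (Fin n)}
    (hcc : ∀ i, n2 (cc i) ≤ 3) (a : Fin n → Fin d → ℝ) (ha : ∀ i ∈ G, n2 (a i) ≤ 4)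
    (hb : Bdd a G ρ) :
    (∫⋯∫⁻_Gᶜ, (fun a => ntSum cc a G τ S) ∂(law cc σ)) a ≤
      2 ^ d * ENNReal.ofReal ((24 * (d : ℝ) ^ 2 * (48 * d * (1 + 4 * ρ) / σ ^ 2)) ^ d) := by
  have hd1 : 1 ≤ d := by omega
  have hd2 : (2 : ℝ) ≤ d := by exact_mod_cast hd
  have hn2 : (2 : ℝ) ≤ n := by exact_mod_cast hn
  have hσle : σ ≤ 1 := by
    refine hσ1.trans ?_
    have hlog : (1 : ℝ) / 2 ≤ Real.log n := by
      have h1 : Real.log 2 ≤ Real.log n := Real.log_le_log two_pos hn2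
      have h2 := Real.log_two_gt_d9
      linarith
    have h1 : (1 : ℝ) ≤ Real.sqrt (d * Real.log n) := by
      rw [Real.one_le_sqrt]
      nlinarith
    rw [div_le_one (by positivity)]
    linarith
  set V : ℝ≥0∞ := ENNReal.ofReal ((24 * (d : ℝ) ^ 2 * (48 * d * (1 + 4 * ρ) / σ ^ 2)) ^ d)
    with hV
  set P : Finset (Idx n d) := Finset.univ.filter fun I : Idx n d => rng I ⊆ Gᶜ with hP
  set N : ℕ := Gᶜ.card with hN
  set h : ℝ≥0∞ := ENNReal.ofReal (1 / 2) with hh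
  -- the terms
  have hmF : ∀ I : Idx n d, Measurable fun b : Fin n → Fin d → ℝ => ntF cc b G τ S I :=
    fun I => (measurable_ntF G τ S I).of_uncurry_left
  have h1 : (∫⋯∫⁻_Gᶜ, (fun a => ntSum cc a G τ S) ∂(law cc σ)) a =
      ∑ I : Idx n d, (∫⋯∫⁻_Gᶜ, (fun b => ntF cc b G τ S I) ∂(law cc σ)) a := by
    have := bd.lmarginal_sum (μ := law cc σ) Finset.univ (Z := Gᶜ) (fun I _ => hmF I) a
    exact this
  have h2 : ∑ I : Idx n d, (∫⋯∫⁻_Gᶜ, (fun b => ntF cc b G τ S I) ∂(law cc σ)) a =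
      ∑ I ∈ P, (∫⋯∫⁻_Gᶜ, (fun b => ntF cc b G τ S I) ∂(law cc σ)) a := by
    symm
    refine Finset.sum_subset (Finset.subset_univ _) fun I _ hI => ?_
    have hI' : ¬ rng I ⊆ Gᶜ := fun hc => hI (by
      rw [hP, Finset.mem_filter]
      exact ⟨Finset.mem_univ _, hc⟩)
    have h3 : (fun b : Fin n → Fin d → ℝ => ntF cc b G τ S I) = fun _ => 0 := by
      funext b
      unfold ntF
      exact if_neg fun hc => hI' hc.1
    rw [h3, bd.lmarginal_const]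
  rw [h1, h2]
  rcases P.eq_empty_or_nonempty with hPe | ⟨I₀, hI₀⟩
  · rw [hPe, Finset.sum_empty]
    exact zero_le
  have hdN : d ≤ N := by
    rw [hP, Finset.mem_filter] at hI₀
    have := Finset.card_le_card hI₀.2
    rwa [bd.card_rng] at this
  -- one vertex
  have h3 : ∀ I ∈ P, (∫⋯∫⁻_Gᶜ, (fun b => ntF cc b G τ S I) ∂(law cc σ)) a ≤
      h ^ (N - d) * ∑ Z ∈ Gᶜ.powerset, (∫⋯∫⁻_Gᶜ, (fun b =>
        if rng I ⊆ Z ∧ Ok cc b ρ G Z I then (1 : ℝ≥0∞) else 0) ∂(law cc σ)) a := by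
    intro I hI
    rw [hP, Finset.mem_filter] at hI
    have hIG := hI.2
    have h4 := nt_fix cc hd1 hσ hσle hτ hτ1 hS a hb hIG
    have h5 : (Gᶜ \ rng I).card = N - d := by
      rw [Finset.card_sdiff_of_subset hIG, bd.card_rng]
    rw [h5] at h4
    refine h4.trans (mul_le_mul' le_rfl ?_)
    have hinj : Set.InjOn (fun Z : Finset (Fin n) => Z ∪ rng I)
        ((Gᶜ \ rng I).powerset : Set (Finset (Fin n))) := by
      intro Z₁ hZ₁ Z₂ hZ₂ hEq
      have hs : ∀ Z : Finset (Fin n), Z ∈ ((Gᶜ \ rng I).powerset : Set (Finset (Fin n))) →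
          (Z ∪ rng I) \ rng I = Z := by
        intro Z hZ
        have hZ' : Z ⊆ Gᶜ \ rng I := Finset.mem_powerset.mp (Finset.mem_coe.mp hZ)
        rw [Finset.union_sdiff_right, Finset.sdiff_eq_self_iff_disjoint]
        rw [Finset.disjoint_left]
        intro i hi
        exact (Finset.mem_sdiff.mp (hZ' hi)).2
      have hEq' : Z₁ ∪ rng I = Z₂ ∪ rng I := hEq
      rw [← hs Z₁ hZ₁, ← hs Z₂ hZ₂, hEq']
    have hsum : ∑ Z ∈ (Gᶜ \ rng I).powerset, (∫⋯∫⁻_Gᶜ, (fun b =>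
        if Ok cc b ρ G (Z ∪ rng I) I then (1 : ℝ≥0∞) else 0) ∂(law cc σ)) a =
        ∑ Z ∈ (Gᶜ \ rng I).powerset.image (fun Z => Z ∪ rng I), (∫⋯∫⁻_Gᶜ, (fun b =>
          if rng I ⊆ Z ∧ Ok cc b ρ G Z I then (1 : ℝ≥0∞) else 0) ∂(law cc σ)) a := by
      rw [Finset.sum_image hinj]
      refine Finset.sum_congr rfl fun Z _ => ?_
      have h6 : rng I ⊆ Z ∪ rng I := Finset.subset_union_right
      simp only [h6, true_and]
    rw [hsum]
    refine Finset.sum_le_sum_of_subset ?_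
    intro Z' hZ'
    obtain ⟨Z, hZ, rfl⟩ := Finset.mem_image.mp hZ'
    rw [Finset.mem_powerset] at hZ ⊢
    exact Finset.union_subset (hZ.trans Finset.sdiff_subset) hIG
  refine (Finset.sum_le_sum h3).trans ?_
  rw [← Finset.mul_sum, Finset.sum_comm]
  have h4 : ∀ Z ∈ Gᶜ.powerset, ∑ I ∈ P, (∫⋯∫⁻_Gᶜ, (fun b =>
      if rng I ⊆ Z ∧ Ok cc b ρ G Z I then (1 : ℝ≥0∞) else 0) ∂(law cc σ)) a ≤ V := by
    intro Z hZ
    rw [Finset.mem_powerset] at hZ
    exact (Finset.sum_le_sum_of_subset (Finset.subset_univ _)).trans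
      (sum_kept cc hn hd hσ hσ1 hρ hZ hcc a ha hb)
  refine (mul_le_mul' le_rfl (Finset.sum_le_sum h4)).trans (le_of_eq ?_)
  rw [Finset.sum_const, Finset.card_powerset, ← hN, nsmul_eq_mul, ← mul_assoc]
  congr 1
  have h5 : h = 2⁻¹ := by
    rw [hh, one_div, ENNReal.ofReal_inv_of_pos two_pos]
    simp
  have h6 : (2 : ℝ≥0∞) ^ N = 2 ^ (N - d) * 2 ^ d := by
    rw [← pow_add, Nat.sub_add_cancel hdN]
  push_cast
  rw [h6, ← mul_assoc, ← mul_pow, h5, ENNReal.inv_mul_cancel two_ne_zero ENNReal.ofNat_ne_top,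
    one_pow, one_mul]

end Pool.Agent.H.MP_0cad2f_co.q3
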