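import Pool.Agent.H.MP_0cad2f_co.q3.Defs

/-!
From the polyhedron to the shifted one: nearly tight constraints.
-/

set_option autoImplicit false

namespace Pool.Agent.H.MP_0cad2f_co.q3

open MeasureTheory ProbabilityTheory Matrix Finset
open scoped NNReal ENNReal
open Pool.Agent.H.MP_0cad2f_co.helper47
open Pool.Agent.H.MP_0cad2f_co.qp (sl)
open Pool.Agent.H.MP_0cad2f_co.bd (rng law bar sh mm rhoB mem_rng)

variable {n d : ℕ}

private theorem Point_dot (a : Fin n → Fin d → ℝ) (y v : Fin d → ℝ) (i : Fin n) :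
    sh a y i ⬝ᵥ v = a i ⬝ᵥ v - y ⬝ᵥ v := by
  unfold sh
  rw [sub_dotProduct]

private theorem Point_good {a : Fin n → Fin d → ℝ} {y : Fin d → ℝ} {B : Idx n d}
    (hB : Good a B) (hy : y ⬝ᵥ vtx a B < 1) : Good (sh a y) B ∧
      vtx (sh a y) B = (1 - y ⬝ᵥ vtx a B)⁻¹ • vtx a B := by
  obtain ⟨v, hv⟩ : ∃ v, v = vtx a B := ⟨_, rfl⟩
  rw [← hv] at hy ⊢
  have h1 : ∀ k, a (B k) ⬝ᵥ v = 1 := by
    intro k
    rw [hv]
    exact dot_vtx hB.1 k
  obtain ⟨s, hs⟩ : ∃ s, s = 1 - y ⬝ᵥ v := ⟨_, rfl⟩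
  have hs0 : 0 < s := by
    rw [hs]
    linarith
  rw [← hs]
  have h3 : ∀ k, sh a y (B k) ⬝ᵥ (s⁻¹ • v) = 1 := by
    intro k
    rw [dotProduct_smul, Point_dot, h1 k, smul_eq_mul, ← hs]
    exact inv_mul_cancel₀ hs0.ne'
  have hdet : (mat (sh a y) B).det ≠ 0 := by
    intro h4
    obtain ⟨w, hw0, hw⟩ := Matrix.exists_vecMul_eq_zero_iff.2 h4
    have h5 : ∑ k, w k = 0 := by
      have h6 : (w ᵥ* mat (sh a y) B) ⬝ᵥ (s⁻¹ • v) = 0 := by
        rw [hw, zero_dotProduct]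
      rw [← Matrix.dotProduct_mulVec] at h6
      have h7 : mat (sh a y) B *ᵥ (s⁻¹ • v) = fun _ => 1 := by
        funext k
        exact h3 k
      rw [h7] at h6
      simpa [dotProduct] using h6
    have h6 : w ᵥ* mat a B = 0 := by
      funext j
      have h7 := congrFun hw j
      simp only [Matrix.vecMul, dotProduct, mat, sh, Pi.sub_apply, Pi.zero_apply] at h7 ⊢
      have h8 : ∑ k, w k * a (B k) j =
          ∑ k, w k * (a (B k) j - y j) + (∑ k, w k) * y j := by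
        rw [Finset.sum_mul, ← Finset.sum_add_distrib]
        exact Finset.sum_congr rfl fun k _ => by ring
      rw [h8, h7, h5, zero_mul, add_zero]
    exact hB.1 (Matrix.exists_vecMul_eq_zero_iff.1 ⟨w, hw0, h6⟩)
  have h4 : s⁻¹ • v = vtx (sh a y) B := eq_vtx hdet h3
  refine ⟨⟨hdet, fun i => ?_⟩, h4.symm⟩
  rw [← h4, dotProduct_smul, Point_dot, smul_eq_mul, inv_mul_le_iff₀ hs0]
  have h5 := hB.2 i
  rw [← hv] at h5
  linarith

private theorem Point_bar {a : Fin n → Fin d → ℝ} {G : Finset (Fin n)} (hG : G.Nonempty)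
    {x : Fin d → ℝ} (h : ∀ i ∈ G, a i ⬝ᵥ x < 1) : bar a G ⬝ᵥ x < 1 := by
  have hc : (0 : ℝ) < G.card := by exact_mod_cast Finset.card_pos.2 hG
  unfold bar
  rw [smul_dotProduct, sum_dotProduct, smul_eq_mul, inv_mul_lt_iff₀ hc]
  have h1 : ∑ i ∈ G, a i ⬝ᵥ x < ∑ i ∈ G, (1 : ℝ) := Finset.sum_lt_sum_of_nonempty hG h
  rw [Finset.sum_const, nsmul_eq_mul] at h1
  exact h1

theorem nt_point {a c : Fin n → Fin d → ℝ} {G : Finset (Fin n)} (hG : G.Nonempty) {I : Idx n d}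
    (hI : Good a I) (hdis : Disjoint G (rng I)) (hsl : ∀ i ∈ G, a i ⬝ᵥ vtx a I ≠ 1)
    (hnear : ∀ i, n2 (a i - c i) ≤ 1) (τ S : ℝ) :
    ntF (sh c (bar a G)) (sh a (bar a G)) G τ S I = ENNReal.ofReal S ^ (nset a G τ I).card := by
  classical
  have hb : bar a G ⬝ᵥ vtx a I < 1 :=
    Point_bar hG fun i hi => lt_of_le_of_ne (hI.2 i) (hsl i hi)
  obtain ⟨h1, h2⟩ := Point_good hI hb
  have hs : 0 < 1 - bar a G ⬝ᵥ vtx a I := by linarith
  have h3 : nset (sh a (bar a G)) G τ I = nset a G τ I := by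
    unfold nset
    refine Finset.filter_congr fun g _ => ?_
    rw [h2, Point_dot, dotProduct_smul, dotProduct_smul, n2_smul,
      abs_of_pos (inv_pos.2 hs), smul_eq_mul, smul_eq_mul]
    have e1 : 1 - ((1 - bar a G ⬝ᵥ vtx a I)⁻¹ * (a g ⬝ᵥ vtx a I) -
        (1 - bar a G ⬝ᵥ vtx a I)⁻¹ * (bar a G ⬝ᵥ vtx a I)) =
        (1 - bar a G ⬝ᵥ vtx a I)⁻¹ * (1 - a g ⬝ᵥ vtx a I) := by
      field_simp
      ring
    have e2 : τ * ((1 - bar a G ⬝ᵥ vtx a I)⁻¹ * n2 (vtx a I)) =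
        (1 - bar a G ⬝ᵥ vtx a I)⁻¹ * (τ * n2 (vtx a I)) := by ring
    rw [e1, e2]
    exact mul_le_mul_iff_right₀ (inv_pos.2 hs)
  unfold ntF
  rw [if_pos, h3]
  refine ⟨fun i hi => ?_, h1, fun i _ => ?_⟩
  · rw [Finset.mem_compl]
    intro hiG
    exact (Finset.disjoint_left.1 hdis) hiG hi
  · have e : sh a (bar a G) i - sh c (bar a G) i = a i - c i := by
      unfold sh
      abel
    rw [e]
    exact hnear i

theorem nt_le_nset (a : Fin n → Fin d → ℝ) (G : Finset (Fin n)) (τ : ℝ) (I : Idx n d) :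
    nt a τ I ≤ (nset a G τ I).card + G.card := by
  classical
  have h1 : {i | i ∉ Set.range I ∧ sl a (vtx a I) i ≤ τ * n2 (vtx a I)} ⊆
      ((nset a G τ I ∪ G : Finset (Fin n)) : Set (Fin n)) := by
    rintro i ⟨hi, hi'⟩
    rw [Finset.mem_coe, Finset.mem_union]
    by_cases hG : i ∈ G
    · exact Or.inr hG
    · left
      unfold nset
      rw [Finset.mem_filter, Finset.mem_sdiff, Finset.mem_compl]
      exact ⟨⟨hG, fun h => hi (mem_rng.1 h)⟩, hi'⟩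
  unfold nt
  refine (Set.ncard_le_ncard h1 (Set.toFinite _)).trans ?_
  rw [Set.ncard_coe_finset]
  exact Finset.card_union_le _ _

end Pool.Agent.H.MP_0cad2f_co.q3
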