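import Pool.Agent.H.MP_0cad2f_co.bd.Blocks
import Pool.Agent.H.MP_0cad2f_co.bd.Events
import Pool.Agent.H.MP_0cad2f_co.bd.Shift
import Pool.Agent.H.MP_0cad2f_co.q3.Meas
import Pool.Agent.H.MP_0cad2f_co.q3.Moment
import Pool.Agent.H.MP_0cad2f_co.q3.Point

/-!
The mean number of nearly tight constraints: every vertex is seen from a well-conditioned block
which is disjoint from its basis.
-/

set_option autoImplicit false

namespace Pool.Agent.H.MP_0cad2f_co.q3

open MeasureTheory ProbabilityTheory Matrix Finset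
open scoped NNReal ENNReal
open Pool.Agent.H.MP_0cad2f_co.helper47 (Vert graph gau noise n2 Idx mat nu vtx Good Simple)
open Pool.Agent.H.MP_0cad2f_co.qp (sl)
open Pool.Agent.H.MP_0cad2f_co.bd (rng law bar sh mm rhoB mask Ok Bdd blk BlkBad)

variable {n d : ℕ}

/-- Among `k + 1` disjoint sets one misses a given set of at most `k` elements. -/
private theorem anchor_pigeon {k : ℕ} (F : Fin (k + 1) → Finset (Fin n))
    (hF : ∀ t t', t ≠ t' → Disjoint (F t) (F t')) {V : Finset (Fin n)} (hV : V.card ≤ k) :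
    ∃ t, Disjoint (F t) V := by
  classical
  by_contra hcon
  push Not at hcon
  have h1 : ∀ t, ∃ i, i ∈ F t ∧ i ∈ V := fun t => Finset.not_disjoint_iff.mp (hcon t)
  choose f hf hfV using h1
  have hinj : Function.Injective f := by
    intro t t' h
    by_contra hne
    exact Finset.disjoint_left.mp (hF t t' hne) (hf t) (h ▸ hf t')
  have h2 : (Finset.univ.image f).card ≤ V.card := by
    refine Finset.card_le_card fun i hi => ?_
    obtain ⟨t, _, rfl⟩ := Finset.mem_image.mp hi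
    exact hfV t
  rw [Finset.card_image_of_injective _ hinj, Finset.card_univ, Fintype.card_fin] at h2
  omega

/-- The bad event. -/
def AnchorBad (c : Fin n → Fin d → ℝ) (T : ℝ) {m : ℕ}
    (g : Fin (2 * d + 1) → Fin m → Fin n) (B : Fin (2 * d + 1) → Fin m → Idx n d) :
    Set (Fin n → Fin d → ℝ) :=
  {a | ∃ i, 1 < n2 (a i - c i)} ∪ {a | ∃ t, ∀ s, a ∈ BlkBad (g t s) (B t s) T}

theorem noise_anchorBad (c : Fin n → Fin d → ℝ) {σ : ℝ} (hn : 2 ≤ n) (hd : 1 ≤ d) (hσ : 0 < σ)
    (hσ1 : σ ≤ 1 / (6 * Real.sqrt (d * Real.log n))) {m : ℕ} (hm : m = mm n d)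
    (g : Fin (2 * d + 1) → Fin m → Fin n) (B : Fin (2 * d + 1) → Fin m → Idx n d)
    (hg : ∀ t s, g t s ∉ rng (B t s))
    (hdisj : ∀ t s t' s', (t, s) ≠ (t', s') →
      Disjoint (blk (g t s) (B t s)) (blk (g t' s') (B t' s'))) :
    noise c σ (AnchorBad c (2 * d / σ) g B) ≤ ENNReal.ofReal (2 / (n : ℝ) ^ d) := by
  have hn1 : (2 : ℝ) ≤ n := by exact_mod_cast hn
  have hn0 : (0 : ℝ) < n := by linarith
  have hd1 : (1 : ℝ) ≤ d := by exact_mod_cast hd
  have hd0 : (0 : ℝ) < d := by linarith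
  have hT : 0 < 2 * d / σ := by positivity
  -- far constraints
  have h1 : noise c σ {a | ∃ i, 1 < n2 (a i - c i)} ≤ ENNReal.ofReal (1 / (n : ℝ) ^ d) := by
    refine (bd.prob_far c hσ hn hd hσ1).trans (ENNReal.ofReal_le_ofReal ?_)
    apply one_div_le_one_div_of_le (by positivity)
    exact pow_le_pow_right₀ (by linarith) (by omega)
  -- bad blocks
  have h2 : noise c σ {a | ∃ t, ∀ s, a ∈ BlkBad (g t s) (B t s) (2 * d / σ)} ≤
      ENNReal.ofReal (1 / (n : ℝ) ^ d) := by
    have h3 : {a : Fin n → Fin d → ℝ | ∃ t, ∀ s, a ∈ BlkBad (g t s) (B t s) (2 * d / σ)} =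
        ⋃ t, {a | ∀ s, a ∈ BlkBad (g t s) (B t s) (2 * d / σ)} := by
      ext a
      simp only [Set.mem_iUnion, Set.mem_ofPred_eq]
    rw [h3]
    refine (measure_iUnion_fintype_le _ _).trans ?_
    have h4 : ∀ t ∈ (Finset.univ : Finset (Fin (2 * d + 1))),
        noise c σ {a | ∀ s, a ∈ BlkBad (g t s) (B t s) (2 * d / σ)} ≤
        ENNReal.ofReal ((1 / 2) ^ m) := by
      intro t _
      refine (bd.noise_blkBad c hσ hT (g t) (B t) (hg t) fun i j hij => hdisj t i t j ?_).trans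
        (le_of_eq ?_)
      · intro h
        exact hij (Prod.ext_iff.mp h).2
      · congr 2
        field_simp
    refine (Finset.sum_le_sum h4).trans ?_
    rw [Finset.sum_const, Finset.card_univ, Fintype.card_fin, nsmul_eq_mul,
      ← ENNReal.ofReal_natCast, ← ENNReal.ofReal_mul (by positivity)]
    apply ENNReal.ofReal_le_ofReal
    have h5 : (n : ℝ) ^ d * ((2 * d + 1 : ℕ) : ℝ) ≤ 2 ^ m := by
      have h6 : n ≤ 2 ^ (Nat.log 2 n + 1) := (Nat.lt_pow_succ_log_self (by norm_num) n).le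
      have h7 : 2 * d + 1 ≤ 2 ^ (2 * d + 1) := (Nat.lt_two_pow_self).le
      have h8 : n ^ d * (2 * d + 1) ≤ 2 ^ m := by
        calc n ^ d * (2 * d + 1) ≤ (2 ^ (Nat.log 2 n + 1)) ^ d * 2 ^ (2 * d + 1) :=
              Nat.mul_le_mul (Nat.pow_le_pow_left h6 d) h7
          _ = 2 ^ m := by
              rw [hm, mm, ← pow_mul, ← pow_add]
              congr 1
              ring
      exact_mod_cast h8
    rw [_root_.one_div_pow, mul_one_div, div_le_div_iff₀ (by positivity) (by positivity), one_mul]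
    linarith [h5]
  unfold AnchorBad
  refine (measure_union_le _ _).trans ?_
  refine (add_le_add h1 h2).trans (le_of_eq ?_)
  rw [← ENNReal.ofReal_add (by positivity) (by positivity)]
  congr 1
  ring

open Classical in
/-- The summand of one block. -/
noncomputable def anchorF (c a : Fin n → Fin d → ℝ) (G : Finset (Fin n))
    (S : Set (Fin n → Fin d → ℝ)) (τ s : ℝ) : ℝ≥0∞ :=
  if (∀ i ∈ G, n2 (a i) ≤ 2) ∧ a ∈ S then
    ntSum (sh c (bar a G)) (sh a (bar a G)) G τ s else 0

theorem measurable_anchorF (c : Fin n → Fin d → ℝ) (G : Finset (Fin n))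
    {S : Set (Fin n → Fin d → ℝ)} (hS : MeasurableSet S) (τ s : ℝ) :
    Measurable fun a : Fin n → Fin d → ℝ => anchorF c a G S τ s := by
  classical
  have hbar : Measurable fun a : Fin n → Fin d → ℝ => bar a G := by
    unfold bar
    fun_prop
  have hsh1 : Measurable fun a : Fin n → Fin d → ℝ => sh c (bar a G) := by
    unfold sh
    exact measurable_pi_lambda _ fun i => measurable_const.sub hbar
  have hsh2 : Measurable fun a : Fin n → Fin d → ℝ => sh a (bar a G) := by
    unfold sh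
    exact measurable_pi_lambda _ fun i => (measurable_pi_apply i).sub hbar
  have h2 : MeasurableSet {a : Fin n → Fin d → ℝ | (∀ i ∈ G, n2 (a i) ≤ 2) ∧ a ∈ S} := by
    refine MeasurableSet.inter ?_ hS
    have h3 : {a : Fin n → Fin d → ℝ | ∀ i ∈ G, n2 (a i) ≤ 2} =
        ⋂ i ∈ G, {a | n2 (a i) ≤ 2} := by
      ext a
      simp
    change MeasurableSet {a : Fin n → Fin d → ℝ | ∀ i ∈ G, n2 (a i) ≤ 2}
    rw [h3]
    exact Finset.measurableSet_biInter _ fun i _ => measurableSet_le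
      (helper94.measurable_n2.comp (measurable_pi_apply i)) measurable_const
  unfold anchorF
  refine Measurable.ite h2 ?_ measurable_const
  have h4 := (measurable_ntSum (d := d) G τ s).comp (hsh1.prodMk hsh2)
  exact h4

theorem anchor (c : Fin n → Fin d → ℝ) {σ τ S : ℝ} (hn : 2 ≤ n) (hd : 2 ≤ d)
    (h : (2 * d + 1) * mm n d * (d + 1) ≤ n) (hσ : 0 < σ)
    (hσ1 : σ ≤ 1 / (6 * Real.sqrt (d * Real.log n))) (hc : ∀ i, n2 (c i) ≤ 1)
    (hτ : 0 < τ) (hτ1 : 8 * τ ≤ σ ^ 2) (hS : S = 1 + σ ^ 2 / (48 * τ)) :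
    ∃ (F : (Fin n → Fin d → ℝ) → ℝ≥0∞) (Bad : Set (Fin n → Fin d → ℝ)), Measurable F ∧
      ∫⁻ a, F a ∂(noise c σ) ≤ ENNReal.ofReal ((2 * d + 1) * mm n d * (2 ^ d * vv d σ ^ d)) ∧
      noise c σ Bad ≤ ENNReal.ofReal (2 / (n : ℝ) ^ d) ∧
      ∀ a, a ∉ Bad → (∀ i, n2 (a i) ≤ 2) →
        (∀ (B : Idx n d) (i : Fin n), i ∉ Set.range B → a i ⬝ᵥ vtx a B ≠ 1) →
        ∀ (I : Idx n d) (k : ℕ), Good a I → k + (d + 1) ≤ nt a τ I →
          ENNReal.ofReal S ^ k ≤ F a := by
  classical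
  have hd1' : 1 ≤ d := by omega
  obtain ⟨m, hm⟩ : ∃ m, m = mm n d := ⟨_, rfl⟩
  rw [← hm] at h ⊢
  obtain ⟨g, B, hg, hdisj⟩ := bd.exists_blocks m h
  obtain ⟨ρ, hρ⟩ : ∃ ρ, ρ = rhoB d σ := ⟨_, rfl⟩
  have hρ0 : 0 ≤ ρ := by
    rw [hρ, rhoB]
    positivity
  have hS1 : 1 ≤ S := by
    rw [hS]
    have : 0 ≤ σ ^ 2 / (48 * τ) := by positivity
    linarith
  let G : Fin (2 * d + 1) → Fin m → Finset (Fin n) := fun t s => blk (g t s) (B t s)
  have hGc : ∀ t s, (G t s).card = d + 1 := fun t s => bd.blocks_card (hg t s)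
  have hGne : ∀ t s, (G t s).Nonempty := by
    intro t s
    rw [← Finset.card_pos, hGc]
    omega
  let P : Fin (2 * d + 1) → Fin m → Set (Fin n → Fin d → ℝ) :=
    fun t s => (BlkBad (g t s) (B t s) (2 * d / σ))ᶜ
  have hP : ∀ t s (a : Fin n → Fin d → ℝ), a ∈ P t s → Bdd (sh a (bar a (G t s))) (G t s) ρ := by
    intro t s a ha
    refine bd.bdd_of_not_bad (hg t s) ha ?_
    rw [hρ, rhoB]
    apply le_of_eq
    ring
  have hPm : ∀ t s, MeasurableSet (P t s) := fun t s => (bd.measurableSet_blkBad _ _ _).compl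
  have hFm : ∀ t s, Measurable fun a : Fin n → Fin d → ℝ => anchorF c a (G t s) (P t s) τ S :=
    fun t s => measurable_anchorF c (G t s) (hPm t s) τ S
  have hv : vv d σ = 24 * (d : ℝ) ^ 2 * (48 * d * (1 + 4 * ρ) / σ ^ 2) := by
    rw [vv, hρ]
  have hv0 : 0 ≤ vv d σ := by
    rw [hv]
    positivity
  refine ⟨fun a => ∑ t, ∑ s, anchorF c a (G t s) (P t s) τ S, AnchorBad c (2 * d / σ) g B,
    ?_, ?_, noise_anchorBad c hn hd1' hσ hσ1 hm g B hg hdisj, ?_⟩
  · exact Finset.measurable_sum _ fun t _ => Finset.measurable_sum _ fun s _ => hFm t s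
  · rw [lintegral_finsetSum _ (fun t _ => Finset.measurable_sum _ fun s _ => hFm t s)]
    have h1 : ∀ t s, ∫⁻ a, anchorF c a (G t s) (P t s) τ S ∂(noise c σ) ≤
        ENNReal.ofReal (2 ^ d * vv d σ ^ d) := by
      intro t s
      refine bd.shift_bound c hσ hc (G := G t s) (hGne t s) (hPm t s) (hP t s)
        (F := fun cc a => ntSum cc a (G t s) τ S) (measurable_ntSum (G t s) τ S)
        (V := ENNReal.ofReal (2 ^ d * vv d σ ^ d)) ?_
      intro cc a hcc ha hb
      refine (nt_moment cc hn hd hσ hσ1 hρ0 hτ hτ1 hS hcc a ha hb).trans (le_of_eq ?_)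
      rw [ENNReal.ofReal_mul (by positivity), hv,
        ENNReal.ofReal_pow (show (0 : ℝ) ≤ 2 by norm_num), ENNReal.ofReal_ofNat]
    calc ∑ t, ∫⁻ a, ∑ s, anchorF c a (G t s) (P t s) τ S ∂(noise c σ)
        = ∑ t, ∑ s, ∫⁻ a, anchorF c a (G t s) (P t s) τ S ∂(noise c σ) := by
          refine Finset.sum_congr rfl fun t _ => ?_
          exact lintegral_finsetSum _ (fun s _ => hFm t s)
      _ ≤ ∑ _t : Fin (2 * d + 1), ∑ _s : Fin m, ENNReal.ofReal (2 ^ d * vv d σ ^ d) :=
          Finset.sum_le_sum fun t _ => Finset.sum_le_sum fun s _ => h1 t s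
      _ = ENNReal.ofReal ((2 * d + 1) * m * (2 ^ d * vv d σ ^ d)) := by
          simp only [Finset.sum_const, Finset.card_univ, Fintype.card_fin, nsmul_eq_mul]
          rw [← ENNReal.ofReal_natCast m, ← ENNReal.ofReal_mul (by positivity),
            ← ENNReal.ofReal_natCast (2 * d + 1), ← ENNReal.ofReal_mul (by positivity)]
          congr 1
          push_cast
          ring
  · intro a ha hnorm hsl I k hI hk
    have ha' : ¬ ((∃ i, 1 < n2 (a i - c i)) ∨
        ∃ t, ∀ s, a ∈ BlkBad (g t s) (B t s) (2 * d / σ)) := ha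
    rw [not_or] at ha'
    obtain ⟨h1, h2⟩ := ha'
    push Not at h1 h2
    choose s hs using h2
    obtain ⟨t, ht⟩ := anchor_pigeon (fun t => G t (s t))
      (fun t t' htt => hdisj _ _ _ _ fun h => htt (congrArg Prod.fst h))
      (V := rng I) (by
        rw [bd.card_rng]
        omega)
    have h3 : ENNReal.ofReal S ^ (nset a (G t (s t)) τ I).card =
        ntF (sh c (bar a (G t (s t)))) (sh a (bar a (G t (s t)))) (G t (s t)) τ S I := by
      refine (nt_point (hGne t (s t)) hI ht ?_ h1 τ S).symm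
      intro i hi
      apply hsl
      intro hi2
      exact Finset.disjoint_left.mp ht hi (bd.mem_rng.mpr hi2)
    have h4 : k ≤ (nset a (G t (s t)) τ I).card := by
      have h5 := nt_le_nset a (G t (s t)) τ I
      rw [hGc] at h5
      omega
    have h6 : (1 : ℝ≥0∞) ≤ ENNReal.ofReal S := by
      rw [← ENNReal.ofReal_one]
      exact ENNReal.ofReal_le_ofReal hS1
    calc ENNReal.ofReal S ^ k ≤ ENNReal.ofReal S ^ (nset a (G t (s t)) τ I).card :=
          pow_le_pow_right₀ h6 h4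
      _ = ntF (sh c (bar a (G t (s t)))) (sh a (bar a (G t (s t)))) (G t (s t)) τ S I := h3
      _ ≤ ntSum (sh c (bar a (G t (s t)))) (sh a (bar a (G t (s t)))) (G t (s t)) τ S := by
          unfold ntSum
          exact Finset.single_le_sum (f := fun I : Idx n d => ntF (sh c (bar a (G t (s t))))
            (sh a (bar a (G t (s t)))) (G t (s t)) τ S I) (fun _ _ => zero_le)
            (Finset.mem_univ I)
      _ = anchorF c a (G t (s t)) (P t (s t)) τ S := by
          unfold anchorF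
          rw [if_pos ⟨fun i _ => hnorm i, hs t⟩]
      _ ≤ ∑ s', anchorF c a (G t s') (P t s') τ S :=
          Finset.single_le_sum (f := fun s' => anchorF c a (G t s') (P t s') τ S)
            (fun _ _ => zero_le) (Finset.mem_univ (s t))
      _ ≤ ∑ t', ∑ s', anchorF c a (G t' s') (P t' s') τ S :=
          Finset.single_le_sum (f := fun t' => ∑ s', anchorF c a (G t' s') (P t' s') τ S)
            (fun _ _ => zero_le) (Finset.mem_univ t)

end Pool.Agent.H.MP_0cad2f_co.q3
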