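import Pool.Agent.H.MP_0cad2f_co.bd.Basic
import Pool.Agent.H.MP_0cad2f_co.bd.CoreDef
import Pool.Agent.H.MP_0cad2f_co.qq.Defs

/-!
The diameter of Gaussian-perturbed polytopes, without the number of constraints: definitions.

`Reg0` is the regularity which holds outside an event of probability `n ^ (-d)`. The number of
nearly tight constraints of the vertices is controlled in the mean: `ntSum` is the sum, over the
vertices outside a block `G`, of `S` to the number of their nearly tight constraints outside `G`.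
-/

set_option autoImplicit false

namespace Pool.Agent.H.MP_0cad2f_co.q3

open MeasureTheory Matrix Finset
open scoped NNReal ENNReal
open Pool.Agent.H.MP_0cad2f_co.helper47 (Vert graph gau noise n2 Idx mat nu vtx Good Simple)
open Pool.Agent.H.MP_0cad2f_co.qp (sl)
open Pool.Agent.H.MP_0cad2f_co.bd (rng law bar sh mm rhoB)

variable {n d : ℕ}

/-- The regularity of the constraints, without the nearly tight constraints. -/
structure Reg0 (a : Fin n → Fin d → ℝ) (R e T : ℝ) (G : Finset (Fin n)) : Prop where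
  norm_le : ∀ i, n2 (a i) ≤ R
  det_ne : ∀ B : Idx n d, (mat a B).det ≠ 0
  nu_le : ∀ (B : Idx n d) (k : Fin d), n2 (nu a B k) ≤ 1 / e
  sl_ge : ∀ (B : Idx n d) (i : Fin n), i ∉ Set.range B → e ≤ |sl a (vtx a B) i|
  span : ∀ (x : Fin d → ℝ) (l : Fin n), |a l ⬝ᵥ x| ≤ T * ∑ i ∈ G, |a i ⬝ᵥ x|

/-- The number of nearly tight constraints of a vertex. -/
noncomputable def nt (a : Fin n → Fin d → ℝ) (τ : ℝ) (B : Idx n d) : ℕ :=
  Set.ncard {i | i ∉ Set.range B ∧ sl a (vtx a B) i ≤ τ * n2 (vtx a B)}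

theorem Reg0.reg {a : Fin n → Fin d → ℝ} {R e T : ℝ} {G : Finset (Fin n)}
    (h : Reg0 a R e T G) {τ : ℝ} {k : ℕ} (hk : ∀ B : Idx n d, Good a B → nt a τ B ≤ k) :
    qq.Reg a R e τ T k G :=
  ⟨h.norm_le, h.det_ne, h.nu_le, h.sl_ge, hk, h.span⟩

open Classical in
/-- The factor of one constraint with centre `c` at the point `x`. -/
noncomputable def fac (c : Fin d → ℝ) (τ S : ℝ) (x y : Fin d → ℝ) : ℝ≥0∞ :=
  if n2 (y - c) ≤ 1 ∧ y ⬝ᵥ x ≤ 1 then
    (if 1 - y ⬝ᵥ x ≤ τ * n2 x then ENNReal.ofReal S else 1) else 0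

open Classical in
/-- The nearly tight constraints outside `G`. -/
noncomputable def nset (a : Fin n → Fin d → ℝ) (G : Finset (Fin n)) (τ : ℝ) (I : Idx n d) :
    Finset (Fin n) :=
  (Gᶜ \ rng I).filter fun g => 1 - a g ⬝ᵥ vtx a I ≤ τ * n2 (vtx a I)

open Classical in
/-- The weight of a vertex outside `G`. -/
noncomputable def ntF (cc a : Fin n → Fin d → ℝ) (G : Finset (Fin n)) (τ S : ℝ) (I : Idx n d) :
    ℝ≥0∞ :=
  if rng I ⊆ Gᶜ ∧ Good a I ∧ ∀ i ∈ Gᶜ, n2 (a i - cc i) ≤ 1 then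
    ENNReal.ofReal S ^ (nset a G τ I).card else 0

/-- The sum of the weights. -/
noncomputable def ntSum (cc a : Fin n → Fin d → ℝ) (G : Finset (Fin n)) (τ S : ℝ) : ℝ≥0∞ :=
  ∑ I : Idx n d, ntF cc a G τ S I

/-- The bound for the number of vertices, to the power `1 / d`. -/
noncomputable def vv (d : ℕ) (σ : ℝ) : ℝ :=
  24 * (d : ℝ) ^ 2 * (48 * d * (1 + 4 * rhoB d σ) / σ ^ 2)

/-- The threshold for nearly tight constraints. -/
noncomputable def tau (d : ℕ) (σ : ℝ) : ℝ := σ ^ 10 / (10 ^ 10 * (d : ℝ) ^ 10)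

/-- The weight of one nearly tight constraint. -/
noncomputable def SS (d : ℕ) (σ : ℝ) : ℝ := 1 + σ ^ 2 / (48 * tau d σ)

/-- The constraints with weights of order one. -/
def GG (n d k : ℕ) : Finset (Fin n) := Finset.univ.filter fun i : Fin n => (i : ℕ) < k * d

end Pool.Agent.H.MP_0cad2f_co.q3
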