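import Pool.Agent.H.MP_0cad2f_co.q3.Defs

/-!
The choice of the parameters (real inequalities only).
-/

set_option autoImplicit false

namespace Pool.Agent.H.MP_0cad2f_co.q3

open MeasureTheory Matrix Finset
open scoped NNReal ENNReal
open Pool.Agent.H.MP_0cad2f_co.helper47 (Vert graph gau noise n2 Idx mat nu vtx Good Simple)
open Pool.Agent.H.MP_0cad2f_co.qp (sl)
open Pool.Agent.H.MP_0cad2f_co.bd (rng law bar sh mm rhoB)

private theorem Params_pow2 {X B : ℝ} (hX : 0 < X) (hB : 0 ≤ B) (h : Real.log X ≤ B) :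
    ∃ J : ℕ, X ≤ 2 ^ J ∧ (J : ℝ) ≤ 2 * B + 1 := by
  refine ⟨⌈2 * B⌉₊, ?_, (Nat.ceil_lt_add_one (by positivity)).le⟩
  have h1 : 2 * B ≤ (⌈2 * B⌉₊ : ℝ) := Nat.le_ceil _
  have h2 : Real.log X ≤ (⌈2 * B⌉₊ : ℝ) * Real.log 2 := by
    have h3 := Real.log_two_gt_d9
    nlinarith
  rw [← Real.log_pow] at h2
  exact (Real.log_le_log_iff hX (by positivity)).1 h2

private theorem Params_log {X : ℝ} {m : ℕ} (hX : 0 < X) (h : X ≤ 2 ^ m) :
    Real.log X ≤ 0.7 * m := by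
  have h1 := Real.log_le_log hX h
  rw [Real.log_pow] at h1
  have h2 := Real.log_two_lt_d9
  have h3 : (0 : ℝ) ≤ m := Nat.cast_nonneg m
  nlinarith

/-- The basic facts. -/
private theorem Params_basic {n d : ℕ} {σ : ℝ} (hn : 2 ≤ n) (hd : 1 ≤ d) (hσ : 0 < σ)
    (hσ1 : σ ≤ 1 / (6 * Real.sqrt (d * Real.log n))) :
    0.69 ≤ Real.log n ∧ (d : ℝ) * Real.log n ≤ (1 / σ) ^ 2 / 36 := by
  have hn2 : (2 : ℝ) ≤ n := by exact_mod_cast hn
  have hd1 : (1 : ℝ) ≤ d := by exact_mod_cast hd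
  have h1 : 0.69 ≤ Real.log n := by
    have h2 := Real.log_le_log (by norm_num) hn2
    have h3 := Real.log_two_gt_d9
    linarith
  refine ⟨h1, ?_⟩
  have hD : 0 < (d : ℝ) * Real.log n := by
    have : 0 < Real.log n := by linarith
    positivity
  have hs : 0 < Real.sqrt ((d : ℝ) * Real.log n) := Real.sqrt_pos.mpr hD
  rw [le_div_iff₀ (by positivity)] at hσ1
  have h4 : (σ * (6 * Real.sqrt ((d : ℝ) * Real.log n))) ^ 2 ≤ 1 := by
    have h5 : 0 ≤ σ * (6 * Real.sqrt ((d : ℝ) * Real.log n)) := by positivity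
    exact pow_le_one₀ h5 hσ1
  have h6 : (σ * (6 * Real.sqrt ((d : ℝ) * Real.log n))) ^ 2 =
      36 * σ ^ 2 * ((d : ℝ) * Real.log n) := by
    rw [mul_pow, mul_pow, Real.sq_sqrt hD.le]
    ring
  rw [h6] at h4
  rw [one_div, inv_pow, le_div_iff₀ (by norm_num), inv_eq_one_div, le_div_iff₀ (by positivity)]
  linarith

private theorem Params_k {n d : ℕ} {s : ℝ} (hn : 2 ≤ n) (hd : 1 ≤ d)
    (h1 : 0.69 ≤ Real.log n) (h2 : (d : ℝ) * Real.log n ≤ s ^ 2 / 36) :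
    ((2 * d * (Nat.log 2 n + 1) + 3 : ℕ) : ℝ) ≤ s ^ 2 := by
  have hd1 : (1 : ℝ) ≤ d := by exact_mod_cast hd
  have h3 : (Nat.log 2 n : ℝ) * 0.69 ≤ Real.log n := by
    have h4 : 2 ^ Nat.log 2 n ≤ n := Nat.pow_log_le_self 2 (by omega)
    have h5 : ((2 : ℝ)) ^ Nat.log 2 n ≤ n := by exact_mod_cast h4
    have h6 := Real.log_le_log (by positivity) h5
    rw [Real.log_pow] at h6
    have h7 := Real.log_two_gt_d9
    have h8 : (0 : ℝ) ≤ Nat.log 2 n := Nat.cast_nonneg _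
    nlinarith
  push_cast
  have h9 : (d : ℝ) * ((Nat.log 2 n : ℝ) * 0.69) ≤ d * Real.log n :=
    mul_le_mul_of_nonneg_left h3 (by linarith)
  have h10 : (d : ℝ) * 0.69 ≤ d * Real.log n := mul_le_mul_of_nonneg_left h1 (by linarith)
  have h11 : 0.69 ≤ (d : ℝ) * Real.log n := by nlinarith
  nlinarith

/-- The ratio of the bounds of the slacks. -/
private theorem Params_Y {n d : ℕ} {σ : ℝ} (hn : 2 ≤ n) (hd : 1 ≤ d) (hdn : d < n) (hσ : 0 < σ)
    (hσ1 : σ ≤ 1) :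
    n * (1 + 2 * (d / (σ / (24 * (n : ℝ) ^ (3 * d + 2))))) /
      (1 / (n : ℝ) ^ 2 * (σ / (24 * (n : ℝ) ^ (3 * d + 2)))) ≤
      1176 * (1 / σ) ^ 2 * (n : ℝ) ^ (6 * d + 8) := by
  have hn2 : (2 : ℝ) ≤ n := by exact_mod_cast hn
  have hn0 : (0 : ℝ) < n := by linarith
  have hd0 : (0 : ℝ) < d := by exact_mod_cast hd
  have hdn' : (d : ℝ) ≤ n := by exact_mod_cast hdn.le
  have hN1 : (1 : ℝ) ≤ (n : ℝ) ^ (3 * d + 2) := one_le_pow₀ (by linarith)
  have hpow : (n : ℝ) ^ (6 * d + 8) = ((n : ℝ) ^ (3 * d + 2)) ^ 2 * (n : ℝ) ^ 4 := by ring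
  rw [hpow]
  set N : ℝ := (n : ℝ) ^ (3 * d + 2) with hN
  have hN0 : 0 < N := by linarith
  have h1 : 1 / (n : ℝ) ^ 2 * (σ / (24 * N)) = σ / (24 * N * (n : ℝ) ^ 2) := by
    field_simp
  have h2 : (d : ℝ) / (σ / (24 * N)) = 24 * N * d / σ := by
    field_simp
  rw [h1, h2, div_le_iff₀ (by positivity)]
  have h3 : 1176 * (1 / σ) ^ 2 * (N ^ 2 * (n : ℝ) ^ 4) * (σ / (24 * N * (n : ℝ) ^ 2)) =
      49 * N * (n : ℝ) ^ 2 / σ := by
    field_simp
    ring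
  rw [h3]
  have h4 : (n : ℝ) * (1 + 2 * (24 * N * d / σ)) = (n : ℝ) * (σ + 48 * N * d) / σ := by
    field_simp
    ring
  rw [h4]
  refine div_le_div_of_nonneg_right ?_ hσ.le
  have h5 : N * d ≤ N * n := mul_le_mul_of_nonneg_left hdn' hN0.le
  have h6 : σ ≤ N * n := by nlinarith
  nlinarith

private theorem Params_log1 {ν : ℝ} (h0 : 0 < ν) (h1 : ν ≤ 1) : ν / 2 ≤ Real.log (1 + ν) := by
  have h2 := Real.one_sub_inv_le_log_of_pos (by linarith : 0 < 1 + ν)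
  have h3 : ν / 2 ≤ 1 - (1 + ν)⁻¹ := by
    rw [inv_eq_one_div, le_sub_iff_add_le, ← le_sub_iff_add_le', div_le_iff₀ (by linarith)]
    nlinarith
  linarith

theorem params_det : ∃ (C : ℝ) (K : ℕ), 0 ≤ C ∧ ∀ (n d : ℕ) (σ : ℝ), 2 ≤ n → 1 ≤ d → d < n →
    0 < σ → σ ≤ 1 / (6 * Real.sqrt (d * Real.log n)) →
    ∀ (k g : ℕ) (e ε Mm : ℝ), k = 2 * d * (Nat.log 2 n + 1) + 3 → g ≤ k * d →
    e = σ / (24 * (n : ℝ) ^ (3 * d + 2)) → ε = 1 / (n : ℝ) ^ 2 →
    Mm = n * (1 + 2 * (d / e)) →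
    ∃ (μ ν : ℝ) (J J₀ J₁ L : ℕ), 0 < μ ∧ μ ≤ 1 ∧ 0 < ν ∧ ε * e ≤ Mm ∧
      400 * d / σ ^ 2 * g * μ * ((g + 1) * (2 * 2)) ≤ tau d σ ∧
      500000 * g * (J + 1) * ν * Real.log (2 * Mm / (ε * e)) ≤ μ ^ 2 ∧
      1000000 * (n : ℝ) ^ d * (d : ℝ) ^ 2 * Mm ^ 2 ≤ 2 ^ J * (ε * e) ^ 2 ∧
      100 * 2 ^ J * (n : ℝ) ^ d * d ≤ L ∧ μ * 2 ^ J ≤ 72 * ν * L ∧
      2 * n * 2 ≤ e * 2 ^ J₀ ∧ 1 ≤ 2 * ε * 2 ^ J₁ ∧
      2 * ((J₀ + J₁ + 1) * (1 + J * (Real.log (18 * Mm / (ε * e)) / Real.log (1 + ν)))) ≤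
        C * ((d : ℝ) / σ) ^ K := by
  refine ⟨10 ^ 43, 44, by positivity, ?_⟩
  intro n d σ hn hd hdn hσ hσs k g e ε Mm hk hg he hε hMm
  obtain ⟨hlog, hD⟩ := Params_basic hn hd hσ hσs
  have hn2 : (2 : ℝ) ≤ n := by exact_mod_cast hn
  have hn0 : (0 : ℝ) < n := by linarith
  have hd1 : (1 : ℝ) ≤ d := by exact_mod_cast hd
  have hd0 : (0 : ℝ) < d := by linarith
  have hdn' : (d : ℝ) ≤ n := by exact_mod_cast hdn.le
  set s : ℝ := 1 / σ with hs
  have hs0 : 0 < s := by positivity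
  have hσs' : σ * s = 1 := by rw [hs]; field_simp
  have hL : Real.log n ≤ (d : ℝ) * Real.log n := le_mul_of_one_le_left (by linarith) hd1
  have hdl : 0.69 ≤ (d : ℝ) * Real.log n := by linarith
  have hs24 : 24 ≤ s ^ 2 := by linarith
  have hs1 : 1 ≤ s := by
    by_contra hc
    have := pow_lt_one₀ hs0.le (not_le.1 hc) two_ne_zero
    linarith
  have hσ1 : σ ≤ 1 := by
    calc σ ≤ σ * s := le_mul_of_one_le_right hσ.le hs1
      _ = 1 := hσs'
  set z : ℝ := (d : ℝ) / σ with hz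
  have hzs : z = d * s := by rw [hz, hs]; ring
  have hz1 : 1 ≤ z := by rw [hzs]; exact one_le_mul_of_one_le_of_one_le hd1 hs1
  have hz0 : 0 < z := by linarith
  have hsz : s ≤ z := by rw [hzs]; exact le_mul_of_one_le_left hs0.le hd1
  have hsz2 : s ^ 2 ≤ z ^ 2 := pow_le_pow_left₀ hs0.le hsz 2
  have hzz : z ≤ z ^ 2 := le_self_pow₀ hz1 two_ne_zero
  have hz2 : 1 ≤ z ^ 2 := one_le_pow₀ hz1
  have hdz : (d : ℝ) ≤ z := by rw [hzs]; exact le_mul_of_one_le_right hd0.le hs1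
  -- the number of constraints of order one
  have hkk : (k : ℝ) ≤ s ^ 2 := by
    rw [hk]
    exact Params_k hn hd hlog hD
  have hgz : (g : ℝ) ≤ z ^ 2 := by
    have h1 : (g : ℝ) ≤ k * d := by exact_mod_cast hg
    have h2 : (k : ℝ) * d ≤ s ^ 2 * d := mul_le_mul_of_nonneg_right hkk hd0.le
    have h3 : s ^ 2 * d ≤ z ^ 2 := by
      rw [hzs, mul_pow]
      have h4 : (d : ℝ) ≤ d ^ 2 := le_self_pow₀ hd1 two_ne_zero
      have h5 : (0 : ℝ) ≤ s ^ 2 := by positivity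
      rw [mul_comm]
      exact mul_le_mul_of_nonneg_right h4 h5
    linarith
  have hg0 : (0 : ℝ) ≤ g := Nat.cast_nonneg g
  -- the ratio
  have hN0 : (0 : ℝ) < (n : ℝ) ^ (3 * d + 2) := by positivity
  have hN1 : (1 : ℝ) ≤ (n : ℝ) ^ (3 * d + 2) := one_le_pow₀ (by linarith)
  have he0 : 0 < e := by rw [he]; positivity
  have hε0 : 0 < ε := by rw [hε]; positivity
  have hMm0 : 0 < Mm := by rw [hMm]; positivity
  have hY : Mm / (ε * e) ≤ 1176 * s ^ 2 * (n : ℝ) ^ (6 * d + 8) := by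
    rw [hMm, hε, he]
    exact Params_Y hn hd hdn hσ hσ1
  have hY0 : 0 < Mm / (ε * e) := by positivity
  have hlogs : Real.log s ≤ z ^ 2 := by
    have h1 := Real.log_le_sub_one_of_pos hs0
    linarith
  have hlogd : Real.log d ≤ z ^ 2 := by
    have h1 := Real.log_le_sub_one_of_pos hd0
    linarith
  have hlogY : Real.log (18 * (Mm / (ε * e))) ≤ 18 * z ^ 2 := by
    have h1 : 18 * (Mm / (ε * e)) ≤ 21168 * s ^ 2 * (n : ℝ) ^ (6 * d + 8) := by linarith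
    have h2 := Real.log_le_log (by positivity) h1
    have h5 : Real.log (21168 * s ^ 2 * (n : ℝ) ^ (6 * d + 8)) =
        Real.log 21168 + 2 * Real.log s + (6 * (d : ℝ) + 8) * Real.log n := by
      rw [Real.log_mul (by positivity) (by positivity), Real.log_mul (by norm_num) (by positivity),
        Real.log_pow, Real.log_pow]
      push_cast
      ring
    rw [h5] at h2
    have h3 : Real.log 21168 ≤ 0.7 * (15 : ℕ) := Params_log (by norm_num) (by norm_num)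
    push_cast at h3
    have h4 : (6 * (d : ℝ) + 8) * Real.log n ≤ 14 * ((d : ℝ) * Real.log n) := by linarith
    linarith
  have hlogY1 : Real.log (Mm / (ε * e)) ≤ 18 * z ^ 2 :=
    (Real.log_le_log hY0 (by linarith)).trans hlogY
  have hlogY2 : Real.log (2 * Mm / (ε * e)) ≤ 18 * z ^ 2 := by
    refine (Real.log_le_log (by positivity) ?_).trans hlogY
    rw [mul_div_assoc]
    linarith
  have hlogY18 : Real.log (18 * Mm / (ε * e)) ≤ 18 * z ^ 2 := by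
    rw [mul_div_assoc]
    exact hlogY
  -- the exponents
  obtain ⟨J, hJ1, hJ2⟩ := Params_pow2 (X := 1000000 * (n : ℝ) ^ d * (d : ℝ) ^ 2 *
    (Mm / (ε * e)) ^ 2) (B := 53 * z ^ 2) (by positivity) (by positivity) (by
      rw [Real.log_mul (by positivity) (by positivity), Real.log_mul (by positivity) (by positivity),
        Real.log_mul (by norm_num) (by positivity), Real.log_pow, Real.log_pow, Real.log_pow]
      have h3 : Real.log 1000000 ≤ 0.7 * (20 : ℕ) := Params_log (by norm_num) (by norm_num)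
      push_cast at h3 ⊢
      linarith)
  obtain ⟨J₀, hJ₀1, hJ₀2⟩ := Params_pow2 (X := 4 * n / e) (B := 7 * z ^ 2) (by positivity)
    (by positivity) (by
      have h1 : 4 * (n : ℝ) / e = 96 * s * (n : ℝ) ^ (3 * d + 3) := by
        rw [he, hs]
        field_simp
        ring
      rw [h1, Real.log_mul (by positivity) (by positivity),
        Real.log_mul (by norm_num) (by positivity), Real.log_pow]
      have h3 : Real.log 96 ≤ 0.7 * (7 : ℕ) := Params_log (by norm_num) (by norm_num)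
      push_cast at h3 ⊢
      have h4 : (3 * (d : ℝ) + 3) * Real.log n ≤ 6 * ((d : ℝ) * Real.log n) := by linarith
      linarith)
  obtain ⟨J₁, hJ₁1, hJ₁2⟩ := Params_pow2 (X := (n : ℝ) ^ 2) (B := z ^ 2) (by positivity)
    (by positivity) (by
      rw [Real.log_pow]
      push_cast
      linarith)
  have hJ3 : (J : ℝ) ≤ 107 * z ^ 2 := by linarith
  have hJ₀3 : (J₀ : ℝ) ≤ 15 * z ^ 2 := by linarith
  have hJ₁3 : (J₁ : ℝ) ≤ 3 * z ^ 2 := by linarith
  have hJ0 : (0 : ℝ) ≤ J := Nat.cast_nonneg J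
  -- the small parameters
  set μ : ℝ := 1 / (10 ^ 14 * z ^ 16) with hμ
  set ν : ℝ := 1 / (10 ^ 37 * z ^ 38) with hν
  have hμ0 : 0 < μ := by positivity
  have hν0 : 0 < ν := by positivity
  have hμ1 : μ ≤ 1 := by
    rw [hμ, div_le_one (by positivity)]
    have : (1 : ℝ) ≤ z ^ 16 := one_le_pow₀ hz1
    linarith
  have hν1 : ν ≤ 1 := by
    rw [hν, div_le_one (by positivity)]
    have : (1 : ℝ) ≤ z ^ 38 := one_le_pow₀ hz1
    linarith
  refine ⟨μ, ν, J, J₀, J₁, ⌈100 * 2 ^ J * (n : ℝ) ^ d * d + μ * 2 ^ J / (72 * ν)⌉₊, hμ0, hμ1, hν0,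
    ?_, ?_, ?_, ?_, ?_, ?_, ?_, ?_, ?_⟩
  · have h1 : ε ≤ 1 := by
      rw [hε, div_le_one (by positivity)]
      exact one_le_pow₀ (by linarith)
    have h2 : e ≤ 1 := by
      rw [he, div_le_one (by positivity)]
      linarith
    have h3 : 1 ≤ Mm := by
      rw [hMm]
      have : (0 : ℝ) ≤ 2 * (d / e) := by positivity
      exact one_le_mul_of_one_le_of_one_le (by linarith) (by linarith)
    exact (mul_le_one₀ h1 he0.le h2).trans h3
  · have h1 : 400 * (d : ℝ) / σ ^ 2 ≤ 400 * z ^ 2 := by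
      rw [hz, div_pow, mul_div_assoc]
      refine mul_le_mul_of_nonneg_left (div_le_div_of_nonneg_right ?_ (by positivity)) (by norm_num)
      exact le_self_pow₀ hd1 two_ne_zero
    have h2 : (g : ℝ) + 1 ≤ 2 * z ^ 2 := by linarith
    have h3 : 400 * (d : ℝ) / σ ^ 2 * g ≤ 400 * z ^ 2 * z ^ 2 :=
      mul_le_mul h1 hgz hg0 (by positivity)
    have h4 : 400 * (d : ℝ) / σ ^ 2 * g * μ ≤ 400 * z ^ 2 * z ^ 2 * μ :=
      mul_le_mul_of_nonneg_right h3 hμ0.le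
    have h5 : 400 * (d : ℝ) / σ ^ 2 * g * μ * ((g + 1) * (2 * 2)) ≤
        400 * z ^ 2 * z ^ 2 * μ * (2 * z ^ 2 * (2 * 2)) :=
      mul_le_mul h4 (mul_le_mul_of_nonneg_right h2 (by norm_num)) (by positivity) (by positivity)
    refine h5.trans ?_
    have h6 : tau d σ = 1 / (10 ^ 10 * z ^ 10) := by
      rw [tau, hz, div_pow, one_div, mul_inv, inv_div, ← one_div, mul_comm, div_mul_div_comm]
      congr 1 <;> ring
    rw [h6, hμ, mul_one_div, div_mul_eq_mul_div, div_le_div_iff₀ (by positivity) (by positivity)]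
    have h7 : 400 * z ^ 2 * z ^ 2 * (2 * z ^ 2 * (2 * 2)) * (10 ^ 10 * z ^ 10) =
        3200 * 10 ^ 10 * z ^ 16 := by ring
    rw [h7]
    have h8 : 0 < z ^ 16 := by positivity
    linarith
  · have h1 : 500000 * (g : ℝ) * (J + 1) * ν * Real.log (2 * Mm / (ε * e)) ≤
        500000 * (g : ℝ) * (J + 1) * ν * (18 * z ^ 2) :=
      mul_le_mul_of_nonneg_left hlogY2 (by positivity)
    refine h1.trans ?_
    have h2 : (J : ℝ) + 1 ≤ 108 * z ^ 2 := by linarith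
    have h3 : 500000 * (g : ℝ) ≤ 500000 * z ^ 2 := by linarith
    have h4 : 500000 * (g : ℝ) * (J + 1) ≤ 500000 * z ^ 2 * (108 * z ^ 2) :=
      mul_le_mul h3 h2 (by positivity) (by positivity)
    have h5 : 500000 * (g : ℝ) * (J + 1) * ν * (18 * z ^ 2) ≤
        500000 * z ^ 2 * (108 * z ^ 2) * ν * (18 * z ^ 2) :=
      mul_le_mul_of_nonneg_right (mul_le_mul_of_nonneg_right h4 hν0.le) (by positivity)
    refine h5.trans ?_
    have h6 : 500000 * z ^ 2 * (108 * z ^ 2) * ν * (18 * z ^ 2) = 972000000 * z ^ 6 * ν := by ring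
    have h7 : μ ^ 2 = 10 ^ 9 * z ^ 6 * ν := by
      rw [hμ, hν]
      field_simp
    rw [h6, h7, mul_assoc, mul_assoc]
    have h8 : 0 < z ^ 6 * ν := by positivity
    linarith
  · have h1 := mul_le_mul_of_nonneg_right hJ1 (by positivity : (0 : ℝ) ≤ (ε * e) ^ 2)
    have h2 : 1000000 * (n : ℝ) ^ d * (d : ℝ) ^ 2 * (Mm / (ε * e)) ^ 2 * (ε * e) ^ 2 =
        1000000 * (n : ℝ) ^ d * (d : ℝ) ^ 2 * Mm ^ 2 := by
      field_simp
    rwa [h2] at h1
  · refine le_trans ?_ (Nat.le_ceil _)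
    have : 0 ≤ μ * 2 ^ J / (72 * ν) := by positivity
    linarith
  · have h1 : μ * 2 ^ J / (72 * ν) ≤
        (⌈100 * 2 ^ J * (n : ℝ) ^ d * d + μ * 2 ^ J / (72 * ν)⌉₊ : ℝ) := by
      refine le_trans ?_ (Nat.le_ceil _)
      have : 0 ≤ 100 * 2 ^ J * (n : ℝ) ^ d * d := by positivity
      linarith
    rw [div_le_iff₀ (by positivity)] at h1
    linarith
  · have h1 := mul_le_mul_of_nonneg_left hJ₀1 he0.le
    have h2 : e * (4 * n / e) = 2 * n * 2 := by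
      field_simp
      ring
    rwa [h2] at h1
  · rw [hε]
    have h1 : 1 / (n : ℝ) ^ 2 * (n : ℝ) ^ 2 = 1 := by field_simp
    have h2 := mul_le_mul_of_nonneg_left hJ₁1 (by positivity : (0 : ℝ) ≤ 1 / (n : ℝ) ^ 2)
    rw [h1] at h2
    linarith
  · have h1 : ν / 2 ≤ Real.log (1 + ν) := Params_log1 hν0 hν1
    have h2 : Real.log (18 * Mm / (ε * e)) / Real.log (1 + ν) ≤ 18 * z ^ 2 / (ν / 2) :=
      div_le_div₀ (by positivity) hlogY18 (by positivity) h1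
    have h3 : 18 * z ^ 2 / (ν / 2) = 36 * 10 ^ 37 * z ^ 40 := by
      rw [hν]
      field_simp
      ring
    rw [h3] at h2
    have h4 : (J : ℝ) * (Real.log (18 * Mm / (ε * e)) / Real.log (1 + ν)) ≤
        107 * z ^ 2 * (36 * 10 ^ 37 * z ^ 40) := by
      refine (mul_le_mul_of_nonneg_left h2 hJ0).trans ?_
      exact mul_le_mul_of_nonneg_right hJ3 (by positivity)
    have hz42 : 1 ≤ z ^ 42 := one_le_pow₀ hz1
    have h5 : 1 + (J : ℝ) * (Real.log (18 * Mm / (ε * e)) / Real.log (1 + ν)) ≤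
        3853 * 10 ^ 37 * z ^ 42 := by
      have h6 : 107 * z ^ 2 * (36 * 10 ^ 37 * z ^ 40) = 3852 * 10 ^ 37 * z ^ 42 := by ring
      rw [h6] at h4
      linarith
    have h7 : (J₀ : ℝ) + J₁ + 1 ≤ 19 * z ^ 2 := by linarith
    have h8 : ((J₀ : ℝ) + J₁ + 1) *
        (1 + (J : ℝ) * (Real.log (18 * Mm / (ε * e)) / Real.log (1 + ν))) ≤
        19 * z ^ 2 * (3853 * 10 ^ 37 * z ^ 42) := by
      refine (mul_le_mul_of_nonneg_left h5 (by positivity)).trans ?_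
      exact mul_le_mul_of_nonneg_right h7 (by positivity)
    have h9 : 19 * z ^ 2 * (3853 * 10 ^ 37 * z ^ 42) = 73207 * 10 ^ 37 * z ^ 44 := by ring
    rw [h9] at h8
    have h10 : 0 < z ^ 44 := by positivity
    linarith

end Pool.Agent.H.MP_0cad2f_co.q3
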