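import Pool.Agent.H.MP_0cad2f_co.q3.Defs

/-!
The choice of the parameters: the hops near vertices with many nearly tight constraints, the hops
near all other vertices, few constraints.
-/

set_option autoImplicit false

namespace Pool.Agent.H.MP_0cad2f_co.q3

open MeasureTheory ProbabilityTheory Matrix Finset
open scoped NNReal ENNReal
open Pool.Agent.H.MP_0cad2f_co.bd (mm rhoB)

private theorem P2_x {n d : ℕ} {σ : ℝ} (hn : 2 ≤ n) (hd : 1 ≤ d) (hσ : 0 < σ)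
    (hσ1 : σ ≤ 1 / (6 * Real.sqrt (d * Real.log n))) :
    4 ≤ 1 / σ ∧ 24 * (d : ℝ) ≤ (1 / σ) ^ 2 ∧ d * Real.log n ≤ (1 / σ) ^ 2 / 36 := by
  have hn1 : (2 : ℝ) ≤ n := by exact_mod_cast hn
  have hd1 : (1 : ℝ) ≤ d := by exact_mod_cast hd
  have hl2 := Real.log_two_gt_d9
  have hlog : Real.log 2 ≤ Real.log n := Real.log_le_log (by norm_num) hn1
  have h00 : (0.69 : ℝ) * d ≤ d * Real.log n := by nlinarith
  have h0 : (0 : ℝ) < d * Real.log n := by linarith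
  have hs : 0 < Real.sqrt (d * Real.log n) := Real.sqrt_pos.2 h0
  have h1 : 6 * Real.sqrt (d * Real.log n) ≤ 1 / σ := by
    rw [le_div_iff₀ (by positivity)] at hσ1
    rw [le_div_iff₀ hσ]
    linarith
  have h2 : (6 * Real.sqrt (d * Real.log n)) ^ 2 ≤ (1 / σ) ^ 2 :=
    pow_le_pow_left₀ (by positivity) h1 2
  rw [mul_pow, Real.sq_sqrt h0.le] at h2
  have h3 : 24 * (d : ℝ) ≤ (1 / σ) ^ 2 := by linarith
  have hx0 : 0 < 1 / σ := by positivity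
  refine ⟨?_, h3, by linarith⟩
  by_contra hc
  push Not at hc
  nlinarith

private theorem P2_mm {n d : ℕ} {σ : ℝ} (hn : 2 ≤ n) (hd : 1 ≤ d) (hσ : 0 < σ)
    (hσ1 : σ ≤ 1 / (6 * Real.sqrt (d * Real.log n))) :
    (2 * d + 1) * (mm n d : ℝ) ≤ d * (1 / σ) ^ 2 := by
  obtain ⟨hx, hdx, hlx⟩ := P2_x hn hd hσ hσ1
  have hd1 : (1 : ℝ) ≤ d := by exact_mod_cast hd
  set x := 1 / σ with hxd
  have hl : (0.69 : ℝ) * (Nat.log 2 n : ℝ) ≤ Real.log n := by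
    have h1 : 2 ^ Nat.log 2 n ≤ n := Nat.pow_log_le_self 2 (by omega)
    have h2 : ((2 : ℝ) ^ Nat.log 2 n) ≤ n := by exact_mod_cast h1
    have h3 := Real.log_le_log (by positivity) h2
    rw [Real.log_pow] at h3
    have h4 := Real.log_two_gt_d9
    have h5 : (0 : ℝ) ≤ Nat.log 2 n := Nat.cast_nonneg _
    nlinarith
  have hdl : (d : ℝ) * (Nat.log 2 n : ℝ) ≤ x ^ 2 / 24 := by
    have h1 : (d : ℝ) * (0.69 * (Nat.log 2 n : ℝ)) ≤ d * Real.log n :=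
      mul_le_mul_of_nonneg_left hl (by linarith)
    have h2 : 0 ≤ x ^ 2 := sq_nonneg x
    linarith
  have hmm : (mm n d : ℝ) ≤ 5 * x ^ 2 / 24 := by
    unfold bd.mm
    push_cast
    have h1 : (d : ℝ) * ((Nat.log 2 n : ℝ) + 1) = d * (Nat.log 2 n : ℝ) + d := by ring
    rw [h1]
    linarith
  have hmm0 : (0 : ℝ) ≤ mm n d := Nat.cast_nonneg _
  calc (2 * (d : ℝ) + 1) * (mm n d : ℝ) ≤ (3 * d) * (5 * x ^ 2 / 24) := by
        apply mul_le_mul (by linarith) hmm hmm0 (by linarith)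
    _ = (15 / 24) * (d * x ^ 2) := by ring
    _ ≤ d * x ^ 2 := by
        have : 0 ≤ (d : ℝ) * x ^ 2 := by positivity
        linarith

private theorem P2_vv {d : ℕ} {σ : ℝ} (hd : 1 ≤ d) (hσ : 0 < σ) (hx : 4 ≤ 1 / σ) :
    0 ≤ vv d σ ∧ vv d σ ≤ 20000 * (d : ℝ) ^ 6 * (1 / σ) ^ 3 := by
  have hd1 : (1 : ℝ) ≤ d := by exact_mod_cast hd
  have h0 : 0 ≤ rhoB d σ := by
    unfold bd.rhoB
    positivity
  have h1 : 1 + 4 * rhoB d σ ≤ 17 * (d : ℝ) ^ 3 * (1 / σ) := by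
    unfold bd.rhoB
    have e1 : 2 * (d : ℝ) ^ 2 * (d + 1) / σ = 2 * (d : ℝ) ^ 2 * (d + 1) * (1 / σ) := by ring
    rw [e1]
    set x := 1 / σ with hxd
    have h2 : 2 * (d : ℝ) ^ 2 * (d + 1) ≤ 2 * (d : ℝ) ^ 2 * (2 * d) := by
      have : (d : ℝ) + 1 ≤ 2 * d := by linarith
      gcongr
    have h3 : 2 * (d : ℝ) ^ 2 * (d + 1) * x ≤ 2 * (d : ℝ) ^ 2 * (2 * d) * x := by gcongr
    have h4 : (1 : ℝ) ≤ (d : ℝ) ^ 3 := one_le_pow₀ (by linarith)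
    have h5 : (1 : ℝ) ≤ (d : ℝ) ^ 3 * x := one_le_mul_of_one_le_of_one_le h4 (by linarith)
    nlinarith
  have h2 : vv d σ = 1152 * (d : ℝ) ^ 3 * (1 / σ) ^ 2 * (1 + 4 * rhoB d σ) := by
    unfold vv
    field_simp
    ring
  rw [h2]
  refine ⟨by positivity, ?_⟩
  calc 1152 * (d : ℝ) ^ 3 * (1 / σ) ^ 2 * (1 + 4 * rhoB d σ)
      ≤ 1152 * (d : ℝ) ^ 3 * (1 / σ) ^ 2 * (17 * (d : ℝ) ^ 3 * (1 / σ)) := by gcongr
    _ = 19584 * ((d : ℝ) ^ 6 * (1 / σ) ^ 3) := by ring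
    _ ≤ 20000 * (d : ℝ) ^ 6 * (1 / σ) ^ 3 := by
        have : 0 ≤ (d : ℝ) ^ 6 * (1 / σ) ^ 3 := by positivity
        linarith

theorem tau_pos {d : ℕ} {σ : ℝ} (hd : 1 ≤ d) (hσ : 0 < σ) : 0 < tau d σ := by
  have hd0 : (0 : ℝ) < d := by exact_mod_cast hd
  unfold tau
  positivity

theorem tau_le {d : ℕ} {σ : ℝ} (hd : 1 ≤ d) (hσ : 0 < σ) (hσ1 : σ ≤ 1) :
    8 * tau d σ ≤ σ ^ 2 := by
  have hd1 : (1 : ℝ) ≤ d := by exact_mod_cast hd
  have h1 : (1 : ℝ) ≤ (d : ℝ) ^ 10 := one_le_pow₀ hd1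
  have h2 : σ ^ 10 ≤ σ ^ 2 := pow_le_pow_of_le_one hσ.le hσ1 (by norm_num)
  have h3 : 0 ≤ σ ^ 2 := sq_nonneg σ
  unfold tau
  rw [← mul_div_assoc, div_le_iff₀ (by positivity)]
  have h4 : σ ^ 2 * 1 ≤ σ ^ 2 * (d : ℝ) ^ 10 := mul_le_mul_of_nonneg_left h1 h3
  nlinarith

private theorem P2_SS {d : ℕ} {σ : ℝ} (hd : 1 ≤ d) (hσ : 0 < σ) :
    2 * 10 ^ 8 * (d : ℝ) ^ 10 * (1 / σ) ^ 8 ≤ SS d σ := by
  have hd0 : (0 : ℝ) < d := by exact_mod_cast hd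
  have h1 : σ ^ 2 / (48 * tau d σ) = 10 ^ 10 / 48 * (d : ℝ) ^ 10 * (1 / σ) ^ 8 := by
    unfold tau
    field_simp
  unfold SS
  rw [h1]
  have h2 : 0 ≤ (d : ℝ) ^ 10 * (1 / σ) ^ 8 := by positivity
  nlinarith

private theorem P2_HR (d j : ℕ) (hd : 1 ≤ d) :
    qq.HR d (Nat.log 2 (d + (2 * d + 2 + j)) + 1) ≤ 2 ^ d * (100 * d ^ 2) * 4 ^ j := by
  set r : ℕ := Nat.log 2 (d + (2 * d + 2 + j)) + 1 with hr
  have h2 : 2 ^ r ≤ 2 * (d + (2 * d + 2 + j)) := by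
    rw [hr, pow_succ, mul_comm]
    exact Nat.mul_le_mul_left 2 (Nat.pow_log_le_self 2 (by omega))
  have h3 : (d + r).choose r ≤ 2 ^ (d + r) := Nat.choose_le_two_pow _ _
  have h4 : 1 + j ≤ 2 ^ j := by
    have := Nat.lt_two_pow_self (n := j)
    omega
  have h5 : d + (2 * d + 2 + j) ≤ 5 * d * 2 ^ j := by
    have h6 : 5 * d * (1 + j) ≤ 5 * d * 2 ^ j := Nat.mul_le_mul_left _ h4
    have h7 : j ≤ d * j := Nat.le_mul_of_pos_left _ hd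
    have h8 : 5 * d * (1 + j) = 5 * d + 5 * (d * j) := by ring
    omega
  have h9 : 2 ^ r ≤ 10 * d * 2 ^ j := by
    refine h2.trans ?_
    have : 2 * (5 * d * 2 ^ j) = 10 * d * 2 ^ j := by ring
    omega
  unfold qq.HR
  calc 2 ^ r * (d + r).choose r ≤ 2 ^ r * 2 ^ (d + r) := Nat.mul_le_mul_left _ h3
    _ = 2 ^ d * (2 ^ r * 2 ^ r) := by ring
    _ ≤ 2 ^ d * ((10 * d * 2 ^ j) * (10 * d * 2 ^ j)) :=
        Nat.mul_le_mul_left _ (Nat.mul_le_mul h9 h9)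
    _ = 2 ^ d * (100 * d ^ 2) * (2 ^ j * 2 ^ j) := by ring
    _ = 2 ^ d * (100 * d ^ 2) * 4 ^ j := by
        rw [← mul_pow, show 2 * 2 = 4 from rfl]

/-- The hops near vertices with many nearly tight constraints. -/
theorem params_nt {n d : ℕ} {σ : ℝ} (hn : 2 ≤ n) (hd : 1 ≤ d) (hσ : 0 < σ)
    (hσ1 : σ ≤ 1 / (6 * Real.sqrt (d * Real.log n))) {k : ℕ} (hk : 2 * d + 2 ≤ k) :
    (qq.HR d (Nat.log 2 (d + k) + 1) : ℝ) * ((2 * d + 1) * mm n d * (2 ^ d * vv d σ ^ d)) ≤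
      SS d σ ^ (k - (d + 1)) := by
  obtain ⟨j, rfl⟩ := Nat.exists_eq_add_of_le hk
  obtain ⟨hx, hdx, hlx⟩ := P2_x hn hd hσ hσ1
  have hmm := P2_mm hn hd hσ hσ1
  obtain ⟨hv0, hv⟩ := P2_vv hd hσ hx
  have hS := P2_SS hd hσ
  have hd1 : (1 : ℝ) ≤ d := by exact_mod_cast hd
  have hHR : (qq.HR d (Nat.log 2 (d + (2 * d + 2 + j)) + 1) : ℝ) ≤
      2 ^ d * (100 * (d : ℝ) ^ 2) * 4 ^ j := by
    exact_mod_cast P2_HR d j hd
  have hmm0 : (0 : ℝ) ≤ (2 * d + 1) * (mm n d : ℝ) := by positivity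
  rw [show 2 * d + 2 + j - (d + 1) = d + 1 + j by omega]
  set x := 1 / σ with hxd
  have hx1 : 1 ≤ x := by linarith
  have hx0 : 0 ≤ x := by linarith
  have hS0 : 0 ≤ 2 * 10 ^ 8 * (d : ℝ) ^ 10 * x ^ 8 := by positivity
  have hSS0 : 0 ≤ SS d σ := hS0.trans hS
  have p1 : (d : ℝ) ^ 6 * x ^ 3 ≤ (d : ℝ) ^ 10 * x ^ 8 :=
    mul_le_mul (pow_le_pow_right₀ hd1 (by norm_num)) (pow_le_pow_right₀ hx1 (by norm_num))
      (by positivity) (by positivity)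
  have p2 : (d : ℝ) ^ 3 * x ^ 2 ≤ (d : ℝ) ^ 10 * x ^ 8 :=
    mul_le_mul (pow_le_pow_right₀ hd1 (by norm_num)) (pow_le_pow_right₀ hx1 (by norm_num))
      (by positivity) (by positivity)
  have p3 : (1 : ℝ) ≤ (d : ℝ) ^ 10 * x ^ 8 :=
    one_le_mul_of_one_le_of_one_le (one_le_pow₀ hd1) (one_le_pow₀ hx1)
  have q1 : 80000 * (d : ℝ) ^ 6 * x ^ 3 ≤ SS d σ := by nlinarith
  have q2 : 100 * (d : ℝ) ^ 3 * x ^ 2 ≤ SS d σ := by nlinarith
  have q3 : (4 : ℝ) ≤ SS d σ := by nlinarith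
  calc (qq.HR d (Nat.log 2 (d + (2 * d + 2 + j)) + 1) : ℝ) *
        ((2 * d + 1) * mm n d * (2 ^ d * vv d σ ^ d))
      ≤ (2 ^ d * (100 * (d : ℝ) ^ 2) * 4 ^ j) *
        ((d * x ^ 2) * (2 ^ d * (20000 * (d : ℝ) ^ 6 * x ^ 3) ^ d)) := by
        have hvd : vv d σ ^ d ≤ (20000 * (d : ℝ) ^ 6 * x ^ 3) ^ d := pow_le_pow_left₀ hv0 hv d
        have hvd0 : 0 ≤ vv d σ ^ d := pow_nonneg hv0 d
        apply mul_le_mul hHR _ (by positivity) (by positivity)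
        apply mul_le_mul hmm _ (by positivity) (by positivity)
        exact mul_le_mul_of_nonneg_left hvd (by positivity)
    _ = (80000 * (d : ℝ) ^ 6 * x ^ 3) ^ d * (100 * (d : ℝ) ^ 3 * x ^ 2) * 4 ^ j := by
        have e1 : (80000 * (d : ℝ) ^ 6 * x ^ 3) ^ d =
            2 ^ d * (2 ^ d * (20000 * (d : ℝ) ^ 6 * x ^ 3) ^ d) := by
          rw [← mul_pow, ← mul_pow]
          congr 1
          ring
        rw [e1]
        ring
    _ ≤ SS d σ ^ d * SS d σ * SS d σ ^ j := by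
        have e1 : (80000 * (d : ℝ) ^ 6 * x ^ 3) ^ d ≤ SS d σ ^ d :=
          pow_le_pow_left₀ (by positivity) q1 d
        have e2 : (4 : ℝ) ^ j ≤ SS d σ ^ j := pow_le_pow_left₀ (by norm_num) q3 j
        apply mul_le_mul _ e2 (by positivity) (by positivity)
        exact mul_le_mul e1 q2 (by positivity) (by positivity)
    _ = SS d σ ^ (d + 1 + j) := by rw [pow_add, pow_succ]

/-- A bound for binomial coefficients. -/
private theorem P2_choose (d r : ℕ) : (d + r).choose r ≤ (d + 1) ^ r := by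
  induction r with
  | zero => simp
  | succ r ih =>
    have h1 := Nat.add_one_mul_choose_eq (d + r) r
    have h2 : d + r + 1 ≤ (d + 1) * (r + 1) := by nlinarith
    have h3 : (d + r + 1).choose (r + 1) * (r + 1) ≤ (d + 1) ^ (r + 1) * (r + 1) := by
      rw [← h1, pow_succ]
      calc (d + r + 1) * (d + r).choose r ≤ (d + 1) * (r + 1) * (d + 1) ^ r :=
            Nat.mul_le_mul h2 ih
        _ = (d + 1) ^ r * (d + 1) * (r + 1) := by ring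
    exact Nat.le_of_mul_le_mul_right h3 (Nat.succ_pos r)

/-- The hops near all other vertices. -/
theorem params_hr : ∃ (C : ℝ) (K : ℕ), 0 ≤ C ∧ ∀ d : ℕ, 1 ≤ d →
    (qq.HR d (Nat.log 2 (d + (2 * d + 1)) + 1) : ℝ) ≤
      C * (d : ℝ) ^ K * (d : ℝ) ^ Nat.log 2 d := by
  refine ⟨64, 5, by norm_num, fun d hd => ?_⟩
  have key : qq.HR d (Nat.log 2 (d + (2 * d + 1)) + 1) ≤ 64 * d ^ 5 * d ^ Nat.log 2 d := by
    set r : ℕ := Nat.log 2 (d + (2 * d + 1)) + 1 with hr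
    have h2 : 2 ^ r ≤ 8 * d := by
      have h1 : 2 ^ r ≤ 2 * (d + (2 * d + 1)) := by
        rw [hr, pow_succ, mul_comm]
        exact Nat.mul_le_mul_left 2 (Nat.pow_log_le_self 2 (by omega))
      omega
    have h4 : r ≤ Nat.log 2 d + 3 := by
      have h6 : Nat.log 2 (d + (2 * d + 1)) ≤ Nat.log 2 (d * 2 * 2) :=
        Nat.log_mono_right (by omega)
      rw [Nat.log_mul_base (by norm_num) (by positivity),
        Nat.log_mul_base (by norm_num) (by positivity)] at h6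
      omega
    have h5 : (d + 1) ^ r ≤ 2 ^ r * d ^ r := by
      rw [← mul_pow]
      exact Nat.pow_le_pow_left (by omega) r
    have h6 : d ^ r ≤ d ^ 3 * d ^ Nat.log 2 d := by
      rw [← pow_add]
      exact Nat.pow_le_pow_right hd (by omega)
    unfold qq.HR
    calc 2 ^ r * (d + r).choose r ≤ 2 ^ r * (2 ^ r * d ^ r) :=
          Nat.mul_le_mul_left _ ((P2_choose d r).trans h5)
      _ ≤ (8 * d) * ((8 * d) * (d ^ 3 * d ^ Nat.log 2 d)) := by gcongr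
      _ = 64 * d ^ 5 * d ^ Nat.log 2 d := by ring
  exact_mod_cast key

/-- Few constraints. -/
theorem params_few : ∃ (C : ℝ) (K : ℕ), 0 ≤ C ∧ ∀ (n d : ℕ) (σ : ℝ), 2 ≤ n → 1 ≤ d → 0 < σ →
    σ ≤ 1 / (6 * Real.sqrt (d * Real.log n)) → n < (2 * d + 1) * mm n d * (d + 1) →
    (n : ℝ) * d / σ ≤ C * ((d : ℝ) / σ) ^ K := by
  refine ⟨2, 3, by norm_num, fun n d σ hn hd hσ hσ1 hlt => ?_⟩
  obtain ⟨hx, hdx, hlx⟩ := P2_x hn hd hσ hσ1
  have hmm := P2_mm hn hd hσ hσ1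
  have hd1 : (1 : ℝ) ≤ d := by exact_mod_cast hd
  have h1 : (n : ℝ) ≤ (2 * d + 1) * (mm n d : ℝ) * (d + 1) := by exact_mod_cast hlt.le
  have h2 : (n : ℝ) ≤ d * (1 / σ) ^ 2 * (2 * d) := by
    refine h1.trans ?_
    apply mul_le_mul hmm (by linarith) (by positivity) (by positivity)
  calc (n : ℝ) * d / σ = n * (d * (1 / σ)) := by ring
    _ ≤ (d * (1 / σ) ^ 2 * (2 * d)) * (d * (1 / σ)) :=
        mul_le_mul_of_nonneg_right h2 (by positivity)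
    _ = 2 * ((d : ℝ) / σ) ^ 3 := by ring

end Pool.Agent.H.MP_0cad2f_co.q3
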