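import Pool.Agent.H.MP_0cad2f_co.q3.Defs
import Pool.Agent.H.MP_0cad2f_co.qq.ProbReg

/-!
The constraints are regular with high probability: the event of `qq.prob_reg`, without the part on
nearly tight constraints.
-/

set_option autoImplicit false

namespace Pool.Agent.H.MP_0cad2f_co.q3

open MeasureTheory ProbabilityTheory Matrix Finset
open scoped NNReal ENNReal
open Pool.Agent.H.MP_0cad2f_co.helper47 (Vert graph gau noise n2 Idx mat nu vtx Good Simple)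
open Pool.Agent.H.MP_0cad2f_co.qp (sl)
open Pool.Agent.H.MP_0cad2f_co.bd (rng law bar sh mm rhoB)

variable {n d : ℕ}

theorem card_GG (n d k : ℕ) : (GG n d k).card ≤ k * d := qq.card_GG n d k

theorem prob_reg (c : Fin n → Fin d → ℝ) {σ : ℝ} (hσ : 0 < σ) (hn : 2 ≤ n) (hd : 1 ≤ d)
    (hdn : d < n) (hσ1 : σ ≤ 1 / (6 * Real.sqrt (d * Real.log n))) (hc : ∀ i, n2 (c i) ≤ 1)
    {k : ℕ} (hk : k = 2 * d * (Nat.log 2 n + 1) + 3) :
    noise c σ {a | ¬ Reg0 a 2 (σ / (24 * (n : ℝ) ^ (3 * d + 2))) (400 * d / σ ^ 2)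
      (GG n d k)} ≤ ENNReal.ofReal (1 / (n : ℝ) ^ d) := by
  have hsub : {a | ¬ Reg0 a 2 (σ / (24 * (n : ℝ) ^ (3 * d + 2))) (400 * d / σ ^ 2) (GG n d k)} ⊆
      {a : Fin n → Fin d → ℝ | ¬ qq.Reg a 2 (σ / (24 * (n : ℝ) ^ (3 * d + 2))) (σ ^ 2 / 12)
        (400 * d / σ ^ 2) k (qq.GG n d k)} := by
    intro a ha h
    exact ha ⟨h.norm_le, h.det_ne, h.nu_le, h.sl_ge, h.span⟩
  exact (measure_mono hsub).trans (qq.prob_reg c hσ hn hd hdn hσ1 hc hk)

end Pool.Agent.H.MP_0cad2f_co.q3
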