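import Pool.Agent.H.MP_0cad2f_co.qp.Main
import Pool.Agent.H.MP_0cad2f_co.qq.Ediam
import Pool.Agent.H.MP_0cad2f_co.bd.Small
import Pool.Agent.H.MP_0cad2f_co.q3.Anchor
import Pool.Agent.H.MP_0cad2f_co.q3.Params
import Pool.Agent.H.MP_0cad2f_co.q3.Params2
import Pool.Agent.H.MP_0cad2f_co.q3.ProbReg

/-!
The diameter of Gaussian-perturbed polytopes, without the number of constraints: the main theorem.
-/

set_option autoImplicit false

namespace Pool.Agent.H.MP_0cad2f_co.q3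

open MeasureTheory ProbabilityTheory Matrix Finset
open scoped NNReal ENNReal
open Pool.Agent.H.MP_0cad2f_co.helper47 (Vert graph gau noise n2 Idx mat nu vtx Good Simple)
open Pool.Agent.H.MP_0cad2f_co.qp (sl)
open Pool.Agent.H.MP_0cad2f_co.bd (mm)

variable {n d : ℕ}

/-- The number of constraints does not matter. -/
theorem sigma_le_one (hn : 2 ≤ n) (hd : 1 ≤ d) {σ : ℝ}
    (hσ1 : σ ≤ 1 / (6 * Real.sqrt (d * Real.log n))) : σ ≤ 1 := by
  have hn1 : (2 : ℝ) ≤ n := by exact_mod_cast hn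
  have hd1 : (1 : ℝ) ≤ d := by exact_mod_cast hd
  have h2 : Real.log 2 ≤ Real.log n := Real.log_le_log (by norm_num) hn1
  have h3 := Real.log_two_gt_d9
  have h4 : (1 / 36 : ℝ) ≤ d * Real.log n := by nlinarith
  have h5 : (1 / 6 : ℝ) ≤ Real.sqrt (d * Real.log n) := by
    rw [show (1 / 6 : ℝ) = Real.sqrt ((1 / 6) ^ 2) by rw [Real.sqrt_sq (by norm_num)]]
    apply Real.sqrt_le_sqrt
    linarith
  refine hσ1.trans ?_
  rw [div_le_one (by positivity)]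
  linarith

/-- Many constraints. -/
theorem main_large : ∃ (C : ℝ) (K : ℕ), 0 ≤ C ∧ ∀ n d : ℕ, 2 ≤ n → 2 ≤ d →
    (2 * d + 1) * mm n d * (d + 1) ≤ n → ∀ σ : ℝ, 0 < σ →
    σ ≤ 1 / (6 * Real.sqrt ((d : ℝ) * Real.log (n : ℝ))) →
    ∀ c : Fin n → Fin d → ℝ, (∀ i, n2 (c i) ≤ 1) →
      ∫⁻ a, (((graph a).ediam : ℕ∞) : ℝ≥0∞) ∂(noise c σ) ≤
        ENNReal.ofReal (C * ((d : ℝ) / σ) ^ K * (d : ℝ) ^ Nat.log 2 d) := by
  obtain ⟨C₁, K₁, hC₁, hP⟩ := params_det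
  obtain ⟨C₂, K₂, hC₂, hH⟩ := params_hr
  refine ⟨C₁ * (C₂ + 1) + 3, K₁ + K₂, by positivity, ?_⟩
  intro n d hn hd h σ hσ hσ1 c hc
  have hd1' : 1 ≤ d := by omega
  have hσle : σ ≤ 1 := sigma_le_one hn hd1' hσ1
  have hdn : d < n := by
    have h1 : d ≤ mm n d := by
      unfold mm
      omega
    have h2 : d + 1 ≤ n := by
      refine le_trans ?_ h
      have h3 : 1 ≤ (2 * d + 1) * mm n d :=
        Nat.mul_pos (by omega) (by omega)
      calc d + 1 = 1 * (d + 1) := by ring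
        _ ≤ _ := Nat.mul_le_mul_right _ h3
    omega
  have hn1 : (2 : ℝ) ≤ n := by exact_mod_cast hn
  have hn0 : (0 : ℝ) < n := by linarith
  have hd1 : (1 : ℝ) ≤ d := by exact_mod_cast hd1'
  have hd0 : (0 : ℝ) < d := by linarith
  obtain ⟨k₀, hk₀⟩ : ∃ k₀, k₀ = 2 * d * (Nat.log 2 n + 1) + 3 := ⟨_, rfl⟩
  obtain ⟨G, hG⟩ : ∃ G : Finset (Fin n), G = GG n d k₀ := ⟨_, rfl⟩
  obtain ⟨e, he⟩ : ∃ e, e = σ / (24 * (n : ℝ) ^ (3 * d + 2)) := ⟨_, rfl⟩
  obtain ⟨ε, hε⟩ : ∃ ε, ε = 1 / (n : ℝ) ^ 2 := ⟨_, rfl⟩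
  obtain ⟨Mm, hMm⟩ : ∃ Mm : ℝ, Mm = n * (1 + 2 * (d / e)) := ⟨_, rfl⟩
  obtain ⟨T, hT⟩ : ∃ T, T = 400 * d / σ ^ 2 := ⟨_, rfl⟩
  have hg : G.card ≤ k₀ * d := by
    rw [hG]
    exact card_GG n d k₀
  obtain ⟨μ, ν, J, J₀, J₁, L, hμ, hμ1, hν, heM, h0, h1, h3, h4, h5, h6, h7, hQ⟩ :=
    hP n d σ hn hd1' hdn hσ hσ1 k₀ G.card e ε Mm hk₀ hg he hε hMm
  rw [← hT] at h0
  have he0 : 0 < e := by
    rw [he]
    positivity
  have hε0 : 0 < ε := by
    rw [hε]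
    positivity
  have hT0 : 0 ≤ T := by
    rw [hT]
    positivity
  have hsc : qq.Scale (qq.sc G ε) G ε := by
    rw [hε]
    exact qq.scale_sc G hn
  obtain ⟨Q, hQd⟩ : ∃ Q : ℝ, Q = 2 * ((J₀ + J₁ + 1) *
      (1 + J * (Real.log (18 * Mm / (ε * e)) / Real.log (1 + ν)))) := ⟨_, rfl⟩
  rw [← hQd] at hQ
  have hQ0 : 0 ≤ Q := by
    have h8 : 0 ≤ Real.log (18 * Mm / (ε * e)) := by
      apply Real.log_nonneg
      rw [le_div_iff₀ (by positivity)]
      have : 0 < ε * e := by positivity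
      linarith
    have h9 : 0 ≤ Real.log (1 + ν) := Real.log_nonneg (by linarith)
    rw [hQd]
    positivity
  -- the mean number of nearly tight constraints
  have hτ : 0 < tau d σ := tau_pos hd1' hσ
  obtain ⟨F, Bad, hFm, hFi, hBad, hF⟩ := anchor c hn hd h hσ hσ1 hc hτ (tau_le hd1' hσ hσle)
    (S := SS d σ) rfl
  obtain ⟨A, hA⟩ : ∃ A : ℝ, A = (2 * d + 1) * mm n d * (2 ^ d * vv d σ ^ d) := ⟨_, rfl⟩
  rw [← hA] at hFi
  have hvv : 0 < vv d σ := by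
    rw [vv, bd.rhoB]
    positivity
  have hA0 : 0 < A := by
    have h8 : 0 < mm n d := by
      unfold mm
      omega
    have h9 : (0 : ℝ) < mm n d := by exact_mod_cast h8
    rw [hA]
    positivity
  -- the good event
  obtain ⟨bad, hbad⟩ : ∃ bad : Set (Fin n → Fin d → ℝ), bad = Bad ∪ {a | ¬ Reg0 a 2 e T G} :=
    ⟨_, rfl⟩
  have hnb : noise c σ bad ≤ ENNReal.ofReal (3 / (n : ℝ) ^ d) := by
    rw [hbad]
    refine (measure_union_le _ _).trans ?_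
    have h8 := prob_reg c hσ hn hd1' hdn hσ1 hc hk₀
    rw [← he, ← hT, ← hG] at h8
    refine (add_le_add hBad h8).trans (le_of_eq ?_)
    rw [← ENNReal.ofReal_add (by positivity) (by positivity)]
    congr 1
    ring
  obtain ⟨H₀, hH₀⟩ : ∃ H₀ : ℕ, H₀ = qq.HR d (Nat.log 2 (d + (2 * d + 1)) + 1) := ⟨_, rfl⟩
  have hSS : 1 ≤ SS d σ := by
    unfold SS
    have : 0 ≤ σ ^ 2 / (48 * tau d σ) := by positivity
    linarith
  -- the pointwise bound
  have hpt : ∀ a : Fin n → Fin d → ℝ, (∀ B : Idx n d, (mat a B).det ≠ 0) → Simple a →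
      (((graph a).ediam : ℕ∞) : ℝ≥0∞) ≤ (ENNReal.ofReal (Q * H₀) +
        ENNReal.ofReal (Q / A) * F a) + bad.indicator (fun _ => ((n ^ d : ℕ) : ℝ≥0∞)) a := by
    intro a hdet hs
    by_cases hb : a ∈ bad
    · rw [Set.indicator_of_mem hb]
      refine le_trans ?_ le_add_self
      exact_mod_cast qp.crude hdet hs
    · refine le_trans ?_ le_self_add
      rw [hbad, Set.mem_union, not_or] at hb
      obtain ⟨hb1, hb2⟩ := hb
      have hR0 : Reg0 a 2 e T G := by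
        by_contra h8
        exact hb2 h8
      -- the maximal number of nearly tight constraints
      have hdiam : ∀ k : ℕ, (∀ B : Idx n d, Good a B → nt a (tau d σ) B ≤ k) →
          (((graph a).ediam : ℕ∞) : ℝ≥0∞) ≤
            ENNReal.ofReal (Q * qq.HR d (Nat.log 2 (d + k) + 1)) := by
        intro k hk
        have hR := hR0.reg hk
        have h8 := qq.ediam_reg hR he0 (by norm_num) hT0 hsc hμ hμ1 hdn hd1'
          (r := Nat.log 2 (d + k) + 1) (Nat.lt_pow_succ_log_self (by norm_num) _) h0 heM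
          (fun B _ => by
            have h9 := qq.ct_le hR he0 (by norm_num) hsc B
            rw [hMm]
            exact h9) hν h1 h3 h4 h5 h6 h7
        refine h8.trans (le_of_eq ?_)
        congr 1
        rw [hQd]
        ring
      by_cases hcase : ∀ B : Idx n d, Good a B → nt a (tau d σ) B ≤ 2 * d + 1
      · refine le_trans ?_ le_self_add
        rw [hH₀]
        exact hdiam _ hcase
      · refine le_trans ?_ le_add_self
        push Not at hcase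
        obtain ⟨B₀, hB₀, hB₀n⟩ := hcase
        classical
        have hne : (Finset.univ.filter fun B : Idx n d => Good a B).Nonempty :=
          ⟨B₀, Finset.mem_filter.mpr ⟨Finset.mem_univ _, hB₀⟩⟩
        obtain ⟨I, hI, hmax⟩ := Finset.exists_max_image _ (fun B => nt a (tau d σ) B) hne
        rw [Finset.mem_filter] at hI
        obtain ⟨k, hk⟩ : ∃ k, k = nt a (tau d σ) I := ⟨_, rfl⟩
        have hk2 : 2 * d + 2 ≤ k := by
          have h8 := hmax B₀ (Finset.mem_filter.mpr ⟨Finset.mem_univ _, hB₀⟩)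
          omega
        have h8 := hdiam k fun B hB => by
          rw [hk]
          exact hmax B (Finset.mem_filter.mpr ⟨Finset.mem_univ _, hB⟩)
        have h9 := params_nt hn hd1' hσ hσ1 hk2
        rw [← hA] at h9
        have h10 : ENNReal.ofReal (SS d σ) ^ (k - (d + 1)) ≤ F a := by
          refine hF a hb1 hR0.norm_le ?_ I (k - (d + 1)) hI.2 (by omega)
          intro B i hi heq
          have h11 := hR0.sl_ge B i hi
          rw [sl, heq, sub_self, abs_zero] at h11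
          linarith
        refine h8.trans ?_
        calc ENNReal.ofReal (Q * qq.HR d (Nat.log 2 (d + k) + 1))
            ≤ ENNReal.ofReal (Q / A * SS d σ ^ (k - (d + 1))) := by
              apply ENNReal.ofReal_le_ofReal
              rw [div_mul_eq_mul_div, le_div_iff₀ hA0, mul_assoc]
              exact mul_le_mul_of_nonneg_left h9 hQ0
          _ = ENNReal.ofReal (Q / A) * ENNReal.ofReal (SS d σ) ^ (k - (d + 1)) := by
              rw [ENNReal.ofReal_mul (by positivity), ENNReal.ofReal_pow (by linarith)]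
          _ ≤ ENNReal.ofReal (Q / A) * F a := mul_le_mul_right h10 _
  -- the expectation
  have hdet : ∀ᵐ a ∂(noise c σ), ∀ B : Idx n d, (mat a B).det ≠ 0 := by
    rw [ae_all_iff]
    intro B
    exact helper94.ae_det_ne_zero c hσ B
  have hle : ∀ᵐ a ∂(noise c σ), (((graph a).ediam : ℕ∞) : ℝ≥0∞) ≤
      (ENNReal.ofReal (Q * H₀) + ENNReal.ofReal (Q / A) * F a) +
        bad.indicator (fun _ => ((n ^ d : ℕ) : ℝ≥0∞)) a := by
    filter_upwards [hdet, helper11.TD.ae_simple c hσ] with a ha hs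
    exact hpt a ha hs
  refine (lintegral_mono_ae hle).trans ?_
  have hm : Measurable fun a : Fin n → Fin d → ℝ =>
      ENNReal.ofReal (Q * H₀) + ENNReal.ofReal (Q / A) * F a :=
    measurable_const.add (hFm.const_mul _)
  rw [lintegral_add_left hm, lintegral_add_left measurable_const, lintegral_const,
    lintegral_const_mul _ hFm]
  have hprob : IsProbabilityMeasure (noise c σ) := inferInstance
  rw [measure_univ, mul_one]
  have h8 : ENNReal.ofReal (Q / A) * ∫⁻ a, F a ∂(noise c σ) ≤ ENNReal.ofReal Q := by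
    refine (mul_le_mul_right hFi _).trans (le_of_eq ?_)
    rw [← ENNReal.ofReal_mul (by positivity), div_mul_cancel₀ _ hA0.ne']
  have h9 : ∫⁻ a, bad.indicator (fun _ => ((n ^ d : ℕ) : ℝ≥0∞)) a ∂(noise c σ) ≤
      ENNReal.ofReal 3 := by
    refine (lintegral_indicator_const_le _ _).trans ?_
    refine (mul_le_mul_right hnb _).trans (le_of_eq ?_)
    rw [← ENNReal.ofReal_natCast, ← ENNReal.ofReal_mul (by positivity)]
    congr 1
    push_cast
    field_simp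
  refine (add_le_add (add_le_add le_rfl h8) h9).trans ?_
  rw [← ENNReal.ofReal_add (by positivity) hQ0, ← ENNReal.ofReal_add (by positivity)
    (by norm_num)]
  apply ENNReal.ofReal_le_ofReal
  have h10 := hH d hd1'
  rw [← hH₀] at h10
  have hx1 : (1 : ℝ) ≤ d / σ := by
    rw [le_div_iff₀ hσ]
    linarith
  have hL1 : (1 : ℝ) ≤ (d : ℝ) ^ Nat.log 2 d := one_le_pow₀ hd1
  have hdx : (d : ℝ) ≤ d / σ := by
    rw [le_div_iff₀ hσ]
    nlinarith
  have hK1 : (1 : ℝ) ≤ ((d : ℝ) / σ) ^ K₁ := one_le_pow₀ hx1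
  have hK2 : (1 : ℝ) ≤ ((d : ℝ) / σ) ^ K₂ := one_le_pow₀ hx1
  have h11 : (H₀ : ℝ) ≤ C₂ * ((d : ℝ) / σ) ^ K₂ * (d : ℝ) ^ Nat.log 2 d := by
    refine h10.trans ?_
    gcongr
  have h12 : (1 : ℝ) ≤ ((d : ℝ) / σ) ^ K₂ * (d : ℝ) ^ Nat.log 2 d := by
    nlinarith
  have h13 : (H₀ : ℝ) + 1 ≤ (C₂ + 1) * (((d : ℝ) / σ) ^ K₂ * (d : ℝ) ^ Nat.log 2 d) := by
    nlinarith
  have h14 : (1 : ℝ) ≤ ((d : ℝ) / σ) ^ (K₁ + K₂) * (d : ℝ) ^ Nat.log 2 d := by
    rw [pow_add]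
    nlinarith [mul_le_mul hK1 h12 zero_le_one (by positivity : (0 : ℝ) ≤ ((d : ℝ) / σ) ^ K₁)]
  calc Q * H₀ + Q + 3 = Q * (H₀ + 1) + 3 := by ring
    _ ≤ C₁ * ((d : ℝ) / σ) ^ K₁ *
          ((C₂ + 1) * (((d : ℝ) / σ) ^ K₂ * (d : ℝ) ^ Nat.log 2 d)) +
        3 * (((d : ℝ) / σ) ^ (K₁ + K₂) * (d : ℝ) ^ Nat.log 2 d) := by
        gcongr
        linarith
    _ = (C₁ * (C₂ + 1) + 3) * ((d : ℝ) / σ) ^ (K₁ + K₂) * (d : ℝ) ^ Nat.log 2 d := by
        rw [pow_add]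
        ring

theorem main : ∃ (C : ℝ) (K : ℕ), ∀ n d : ℕ, 2 ≤ n → 1 ≤ d → ∀ σ : ℝ, 0 < σ →
    σ ≤ 1 / (6 * Real.sqrt ((d : ℝ) * Real.log (n : ℝ))) →
    ∀ c : Fin n → Fin d → ℝ, (∀ i, ∑ j, (c i j) ^ 2 ≤ 1) →
      ∫⁻ a, (((graph a).ediam : ℕ∞) : ℝ≥0∞) ∂(noise c σ) ≤
        ENNReal.ofReal (C * ((d : ℝ) / σ) ^ K * (d : ℝ) ^ Nat.log 2 d) := by
  obtain ⟨C₁, K₁, hC₁, hL⟩ := main_large
  obtain ⟨C₂, K₂, hQ⟩ := qp.main
  obtain ⟨C₃, K₃, hC₃, hF⟩ := params_few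
  refine ⟨C₁ + |C₂| * C₃ ^ K₂ + 1, K₁ + K₃ * K₂, ?_⟩
  intro n d hn hd σ hσ hσ1 c hc
  have hσle : σ ≤ 1 := sigma_le_one hn hd hσ1
  have hd1 : (1 : ℝ) ≤ d := by exact_mod_cast hd
  have hd0 : (0 : ℝ) < d := by linarith
  have hx1 : (1 : ℝ) ≤ d / σ := by
    rw [le_div_iff₀ hσ]
    linarith
  have hx0 : (0 : ℝ) ≤ d / σ := by linarith
  have hL1 : (1 : ℝ) ≤ (d : ℝ) ^ Nat.log 2 d := one_le_pow₀ hd1
  have hL0 : (0 : ℝ) ≤ (d : ℝ) ^ Nat.log 2 d := by linarith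
  have hK1 : (1 : ℝ) ≤ ((d : ℝ) / σ) ^ (K₁ + K₃ * K₂) := one_le_pow₀ hx1
  have hKa : ((d : ℝ) / σ) ^ K₁ ≤ ((d : ℝ) / σ) ^ (K₁ + K₃ * K₂) :=
    pow_le_pow_right₀ hx1 (by omega)
  have hKb : ((d : ℝ) / σ) ^ (K₃ * K₂) ≤ ((d : ℝ) / σ) ^ (K₁ + K₃ * K₂) :=
    pow_le_pow_right₀ hx1 (by omega)
  have hc' : ∀ i, n2 (c i) ≤ 1 := by
    intro i
    rw [n2, Real.sqrt_le_one]
    simpa [dotProduct, pow_two] using hc i
  have hC2 : 0 ≤ |C₂| * C₃ ^ K₂ := by positivity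
  rcases Nat.lt_or_ge d 2 with hd2 | hd2
  · -- dimension one
    have hd' : d = 1 := by omega
    have h1 : ∀ a : Fin n → Fin d → ℝ, (((graph a).ediam : ℕ∞) : ℝ≥0∞) ≤ 1 := by
      intro a
      exact_mod_cast bd.ediam_dim_one hd' a
    have hprob : IsProbabilityMeasure (noise c σ) := inferInstance
    calc ∫⁻ a, (((graph a).ediam : ℕ∞) : ℝ≥0∞) ∂(noise c σ)
        ≤ ∫⁻ _a, 1 ∂(noise c σ) := lintegral_mono fun a => h1 a
      _ = ENNReal.ofReal 1 := by rw [lintegral_const, measure_univ, ENNReal.ofReal_one, mul_one]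
      _ ≤ _ := by
          apply ENNReal.ofReal_le_ofReal
          have h2 : (1 : ℝ) ≤ ((d : ℝ) / σ) ^ (K₁ + K₃ * K₂) * (d : ℝ) ^ Nat.log 2 d := by
            nlinarith
          rw [mul_assoc]
          nlinarith
  rcases Nat.lt_or_ge n ((2 * d + 1) * mm n d * (d + 1)) with hlt | hge
  · -- few constraints
    refine (hQ n d hn hd σ hσ hσ1 c hc).trans (ENNReal.ofReal_le_ofReal ?_)
    have h1 := hF n d σ hn hd hσ hσ1 hlt
    have hn0 : (0 : ℝ) ≤ n := Nat.cast_nonneg n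
    calc C₂ * ((n : ℝ) * d / σ) ^ K₂ * (d : ℝ) ^ Nat.log 2 d
        ≤ |C₂| * (C₃ * ((d : ℝ) / σ) ^ K₃) ^ K₂ * (d : ℝ) ^ Nat.log 2 d := by
          gcongr
          exact le_abs_self C₂
      _ = |C₂| * C₃ ^ K₂ * ((d : ℝ) / σ) ^ (K₃ * K₂) * (d : ℝ) ^ Nat.log 2 d := by
          rw [mul_pow, ← pow_mul]
          ring
      _ ≤ (C₁ + |C₂| * C₃ ^ K₂ + 1) * ((d : ℝ) / σ) ^ (K₁ + K₃ * K₂) *
          (d : ℝ) ^ Nat.log 2 d := by
          gcongr
          linarith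
  · -- many constraints
    refine (hL n d hn hd2 hge σ hσ hσ1 c hc').trans (ENNReal.ofReal_le_ofReal ?_)
    gcongr
    linarith

end Pool.Agent.H.MP_0cad2f_co.q3
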